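import Mathlib

/-!
# The chordal distance on the sphere and normality
-/

set_option autoImplicit false

namespace Pool.Agent.R239.Kan

open Filter Topology MeasureTheory
open scoped OnePoint

/-- The chordal (spherical) distance on `OnePoint ℂ`. -/
noncomputable def chord : OnePoint ℂ → OnePoint ℂ → ℝ
  | some a, some b => 2 * ‖a - b‖ / (Real.sqrt (1 + ‖a‖ ^ 2) * Real.sqrt (1 + ‖b‖ ^ 2))
  | some a, none => 2 / Real.sqrt (1 + ‖a‖ ^ 2)
  | none, some b => 2 / Real.sqrt (1 + ‖b‖ ^ 2)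
  | none, none => 0

/-- Normality of a sequence of self-maps of the sphere on `U`: every subsequence has a further
subsequence converging, uniformly on compact subsets of `U`, in the spherical metric. -/
def NormalOn (F : ℕ → OnePoint ℂ → OnePoint ℂ) (U : Set (OnePoint ℂ)) : Prop :=
  ∀ φ : ℕ → ℕ, StrictMono φ → ∃ ψ : ℕ → ℕ, StrictMono ψ ∧ ∃ h : OnePoint ℂ → OnePoint ℂ,
    ∀ K : Set (OnePoint ℂ), K ⊆ U → IsCompact K → ∀ ε : ℝ, 0 < ε →
      ∃ N : ℕ, ∀ m ≥ N, ∀ w ∈ K, chord (F (φ (ψ m)) w) (h w) < ε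

lemma one_le_sq (a : ℂ) : 1 ≤ Real.sqrt (1 + ‖a‖ ^ 2) := by
  rw [Real.one_le_sqrt]
  nlinarith [sq_nonneg ‖a‖]

lemma norm_le_sq (a : ℂ) : ‖a‖ ≤ Real.sqrt (1 + ‖a‖ ^ 2) := by
  apply Real.le_sqrt_of_sq_le
  linarith

lemma chord_coe (a b : ℂ) : chord (a : OnePoint ℂ) (b : OnePoint ℂ) =
  2 * ‖a - b‖ / (Real.sqrt (1 + ‖a‖ ^ 2) * Real.sqrt (1 + ‖b‖ ^ 2)) := rfl

lemma chord_coe_infty (a : ℂ) : chord (a : OnePoint ℂ) ∞ = 2 / Real.sqrt (1 + ‖a‖ ^ 2) := rfl

lemma chord_infty_infty : chord ∞ ∞ = 0 := rfl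

lemma chord_coe_le (a b : ℂ) : chord (a : OnePoint ℂ) (b : OnePoint ℂ) ≤ 2 * ‖a - b‖ := by
  rw [chord_coe]
  have h1 := one_le_sq a
  have h2 := one_le_sq b
  rw [div_le_iff₀ (by positivity)]
  have h3 : 1 ≤ Real.sqrt (1 + ‖a‖ ^ 2) * Real.sqrt (1 + ‖b‖ ^ 2) := by nlinarith
  nlinarith [norm_nonneg (a - b)]

lemma chord_infty_le {a : ℂ} {R : ℝ} (hR : 0 < R) (ha : R ≤ ‖a‖) :
    chord (a : OnePoint ℂ) ∞ ≤ 2 / R := by
  rw [chord_coe_infty]
  have h1 := norm_le_sq a
  have h2 := one_le_sq a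
  gcongr
  exact ha.trans h1

lemma chord_comm (x y : OnePoint ℂ) : chord x y = chord y x := by
  induction x using OnePoint.rec with
  | infty =>
    induction y using OnePoint.rec with
    | infty => rfl
    | coe b => rfl
  | coe a =>
    induction y using OnePoint.rec with
    | infty => rfl
    | coe b => rw [chord_coe, chord_coe, norm_sub_rev, mul_comm (Real.sqrt _)]

lemma sqrt_lip (a b : ℂ) : Real.sqrt (1 + ‖b‖ ^ 2) ≤ ‖a - b‖ + Real.sqrt (1 + ‖a‖ ^ 2) := by
  set A := Real.sqrt (1 + ‖a‖ ^ 2) with hA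
  have hA1 : 1 ≤ A := one_le_sq a
  have hA2 : A ^ 2 = 1 + ‖a‖ ^ 2 := Real.sq_sqrt (by positivity)
  have hA3 : ‖a‖ ≤ A := norm_le_sq a
  have h1 : ‖b‖ ≤ ‖a - b‖ + ‖a‖ := by
    have := norm_sub_le a (a - b)
    rw [sub_sub_cancel] at this
    linarith
  rw [Real.sqrt_le_left (by positivity)]
  nlinarith [norm_nonneg a, norm_nonneg b, norm_nonneg (a - b)]

/-- triangle inequality for the chordal distance on the plane -/
lemma dd_triangle (a b c : ℂ) : chord (a : OnePoint ℂ) (c : OnePoint ℂ) ≤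
    chord (a : OnePoint ℂ) (b : OnePoint ℂ) + chord (b : OnePoint ℂ) (c : OnePoint ℂ) := by
  rw [chord_coe, chord_coe, chord_coe]
  set A := Real.sqrt (1 + ‖a‖ ^ 2) with hA
  set B := Real.sqrt (1 + ‖b‖ ^ 2) with hB
  set C := Real.sqrt (1 + ‖c‖ ^ 2) with hC
  have hA1 : 1 ≤ A := one_le_sq a
  have hB1 : 1 ≤ B := one_le_sq b
  have hC1 : 1 ≤ C := one_le_sq c
  have hA2 : A ^ 2 = 1 + ‖a‖ ^ 2 := Real.sq_sqrt (by positivity)
  have hB2 : B ^ 2 = 1 + ‖b‖ ^ 2 := Real.sq_sqrt (by positivity)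
  have hC2 : C ^ 2 = 1 + ‖c‖ ^ 2 := Real.sq_sqrt (by positivity)
  have key : ∀ x y : ℂ, ∀ X Y : ℝ, 1 ≤ X → 1 ≤ Y → X ^ 2 = 1 + ‖x‖ ^ 2 → Y ^ 2 = 1 + ‖y‖ ^ 2 →
      ‖1 + starRingEnd ℂ x * y‖ ≤ X * Y := by
    intro x y X Y hX hY hX2 hY2
    have h1 : ‖1 + starRingEnd ℂ x * y‖ ≤ 1 + ‖x‖ * ‖y‖ := by
      refine (norm_add_le _ _).trans ?_
      rw [norm_one, norm_mul, RCLike.norm_conj]
    refine h1.trans ?_
    apply le_of_sq_le_sq _ (by positivity)
    rw [mul_pow, hX2, hY2]
    nlinarith [sq_nonneg (‖x‖ - ‖y‖)]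
  have h1 : (a - c) * ((1 + ‖b‖ ^ 2 : ℝ) : ℂ) = (a - b) * (1 + starRingEnd ℂ b * c)
      + (b - c) * (1 + starRingEnd ℂ b * a) := by
    have h2 : ((‖b‖ ^ 2 : ℝ) : ℂ) = starRingEnd ℂ b * b := by
      rw [mul_comm, Complex.mul_conj, Complex.normSq_eq_norm_sq]
    push_cast at h2 ⊢
    rw [h2]
    ring
  have h3 : ‖a - c‖ * B ^ 2 ≤ ‖a - b‖ * (B * C) + ‖b - c‖ * (B * A) := by
    have h4 : ‖(a - c) * ((1 + ‖b‖ ^ 2 : ℝ) : ℂ)‖ = ‖a - c‖ * B ^ 2 := by
      rw [norm_mul, Complex.norm_real, Real.norm_eq_abs, abs_of_nonneg (by positivity), hB2]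
    rw [← h4, h1]
    refine (norm_add_le _ _).trans ?_
    rw [norm_mul, norm_mul]
    exact add_le_add (mul_le_mul_of_nonneg_left (key b c B C hB1 hC1 hB2 hC2) (norm_nonneg _))
      (mul_le_mul_of_nonneg_left (key b a B A hB1 hA1 hB2 hA2) (norm_nonneg _))
  have h5 : ‖a - c‖ * B ≤ ‖a - b‖ * C + ‖b - c‖ * A := by
    have hB0 : 0 < B := by linarith
    have : (‖a - c‖ * B) * B ≤ (‖a - b‖ * C + ‖b - c‖ * A) * B := by nlinarith
    exact le_of_mul_le_mul_right this hB0
  have hA0 : 0 < A := by linarith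
  have hB0 : 0 < B := by linarith
  have hC0 : 0 < C := by linarith
  rw [div_add_div _ _ (by positivity) (by positivity), div_le_div_iff₀ (by positivity)
    (by positivity)]
  have h6 : 0 ≤ A * B * C := by positivity
  nlinarith [mul_le_mul_of_nonneg_left h5 h6]

lemma chord_triangle (x y z : OnePoint ℂ) : chord x z ≤ chord x y + chord y z := by
  induction x using OnePoint.rec with
  | infty =>
    induction y using OnePoint.rec with
    | infty => rw [chord_infty_infty, zero_add]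
    | coe b =>
      induction z using OnePoint.rec with
      | infty =>
        rw [chord_infty_infty, chord_comm ∞, chord_coe_infty]
        positivity
      | coe c =>
        rw [chord_comm ∞, chord_comm ∞, chord_coe_infty, chord_coe_infty, chord_coe]
        have hb := one_le_sq b
        have hc := one_le_sq c
        have h := sqrt_lip c b
        rw [norm_sub_rev] at h
        set B := Real.sqrt (1 + ‖b‖ ^ 2)
        set C := Real.sqrt (1 + ‖c‖ ^ 2)
        have hB0 : 0 < B := by linarith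
        have hC0 : 0 < C := by linarith
        rw [div_add_div _ _ (by positivity) (by positivity), div_le_div_iff₀ (by positivity)
          (by positivity)]
        nlinarith [mul_le_mul_of_nonneg_left h (by positivity : 0 ≤ B * C)]
  | coe a =>
    induction y using OnePoint.rec with
    | infty =>
      induction z using OnePoint.rec with
      | infty => rw [chord_infty_infty, add_zero]
      | coe c =>
        rw [chord_comm ∞, chord_coe_infty, chord_coe_infty, chord_coe]
        have ha := one_le_sq a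
        have hc := one_le_sq c
        have ha2 := norm_le_sq a
        have hc2 := norm_le_sq c
        have h := norm_sub_le a c
        set A := Real.sqrt (1 + ‖a‖ ^ 2)
        set C := Real.sqrt (1 + ‖c‖ ^ 2)
        have hA0 : 0 < A := by linarith
        have hC0 : 0 < C := by linarith
        rw [div_add_div _ _ (by positivity) (by positivity), div_le_div_iff₀ (by positivity)
          (by positivity)]
        have h' : ‖a - c‖ ≤ A + C := by linarith
        nlinarith [mul_le_mul_of_nonneg_left h' (by positivity : 0 ≤ A * C)]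
    | coe b =>
      induction z using OnePoint.rec with
      | infty =>
        rw [chord_coe_infty, chord_coe_infty, chord_coe]
        have ha := one_le_sq a
        have hb := one_le_sq b
        have h := sqrt_lip a b
        set A := Real.sqrt (1 + ‖a‖ ^ 2)
        set B := Real.sqrt (1 + ‖b‖ ^ 2)
        have hA0 : 0 < A := by linarith
        have hB0 : 0 < B := by linarith
        rw [div_add_div _ _ (by positivity) (by positivity), div_le_div_iff₀ (by positivity)
          (by positivity)]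
        nlinarith [mul_le_mul_of_nonneg_left h (by positivity : 0 ≤ A * B)]
      | coe c => exact dd_triangle a b c

lemma tendsto_infty_iff (g : ℕ → ℂ) :
    Tendsto (fun n => ((g n : ℂ) : OnePoint ℂ)) atTop (𝓝 ∞) ↔
      Tendsto (fun n => ‖g n‖) atTop atTop := by
  rw [tendsto_norm_atTop_iff_cobounded, Metric.cobounded_eq_cocompact,
    ← Filter.coclosedCompact_eq_cocompact, ← OnePoint.comap_coe_nhds_infty, tendsto_comap_iff]
  rfl

end Pool.Agent.R239.Kan
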