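import Pool.Agent.R239.Kan.Chord

/-!
# Nonautonomous quadratic dynamics: escaping points and the Julia set
-/

set_option autoImplicit false

namespace Pool.Agent.R239.Kan

open Filter Topology MeasureTheory
open scoped OnePoint

/-- one step -/
noncomputable def st (a z : ℂ) : ℂ := z + a * z * (1 - z)

/-- orbits of the nonautonomous system -/
noncomputable def orb (a : ℕ → ℂ) : ℕ → ℂ → ℂ
  | 0, z => z
  | n + 1, z => st (a n) (orb a n z)

/-- shifted coefficient sequence -/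
def sh (n : ℕ) (a : ℕ → ℂ) : ℕ → ℂ := fun k => a (n + k)

/-- orbits on the sphere -/
noncomputable def orbS (a : ℕ → ℂ) : ℕ → OnePoint ℂ → OnePoint ℂ
  | 0, z => z
  | n + 1, z => OnePoint.map (st (a n)) (orbS a n z)

/-- the Fatou set -/
def fatouS (a : ℕ → ℂ) : Set (OnePoint ℂ) :=
  {z | ∃ U : Set (OnePoint ℂ), IsOpen U ∧ z ∈ U ∧ NormalOn (orbS a) U}

/-- good for escape with constant `C` -/
def Esc (C : ℝ) (a : ℕ → ℂ) : Prop := ∀ n, 10 ≤ ‖a n‖ * (C * 2 ^ n)

/-- the escaping points -/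
def Out (a : ℕ → ℂ) (z : ℂ) : Prop := Tendsto (fun n => ‖orb a n z‖) atTop atTop

lemma orb_zero (a : ℕ → ℂ) (z : ℂ) : orb a 0 z = z := rfl

lemma orb_succ (a : ℕ → ℂ) (n : ℕ) (z : ℂ) : orb a (n + 1) z = st (a n) (orb a n z) := rfl

lemma orbS_infty (a : ℕ → ℂ) (n : ℕ) : orbS a n ∞ = ∞ := by
  induction n with
  | zero => rfl
  | succ n ih => rw [orbS, ih]; rfl

lemma orbS_coe (a : ℕ → ℂ) (n : ℕ) (z : ℂ) :
    orbS a n (z : OnePoint ℂ) = ((orb a n z : ℂ) : OnePoint ℂ) := by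
  induction n with
  | zero => rfl
  | succ n ih => rw [orbS, ih, OnePoint.map_some, orb_succ]

lemma orb_add (a : ℕ → ℂ) (n k : ℕ) (z : ℂ) : orb a (n + k) z = orb (sh n a) k (orb a n z) := by
  induction k with
  | zero => rfl
  | succ k ih => rw [← add_assoc, orb_succ, orb_succ, ih, sh]

lemma sh_sh (a : ℕ → ℂ) (n m : ℕ) : sh m (sh n a) = sh (n + m) a := by
  funext k
  simp only [sh, add_assoc]

lemma sh_zero (a : ℕ → ℂ) : sh 0 a = a := by
  funext k
  simp only [sh, zero_add]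

lemma orb_cont (a : ℕ → ℂ) (n : ℕ) : Continuous (orb a n) := by
  induction n with
  | zero => exact continuous_id
  | succ n ih =>
    have : orb a (n + 1) = fun z => orb a n z + a n * orb a n z * (1 - orb a n z) := by
      funext z
      rw [orb_succ, st]
    rw [this]
    exact ih.add ((continuous_const.mul ih).mul (continuous_const.sub ih))

lemma orb_fix_zero (a : ℕ → ℂ) (n : ℕ) : orb a n 0 = 0 := by
  induction n with
  | zero => rfl
  | succ n ih => rw [orb_succ, ih, st]; ring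

lemma st_lower (a z : ℂ) : ‖z‖ * (‖a‖ * (‖z‖ - 1) - 1) ≤ ‖st a z‖ := by
  have h1 : st a z = z * (1 + a * (1 - z)) := by rw [st]; ring
  rw [h1, norm_mul]
  apply mul_le_mul_of_nonneg_left _ (norm_nonneg _)
  have h2 : ‖a * (1 - z)‖ - 1 ≤ ‖1 + a * (1 - z)‖ := by
    have := norm_sub_norm_le (a * (1 - z)) (-1)
    rw [norm_neg, norm_one, sub_neg_eq_add, add_comm _ (1 : ℂ)] at this
    exact this
  rw [norm_mul] at h2
  have h3 : ‖z‖ - 1 ≤ ‖1 - z‖ := by
    have := norm_sub_norm_le z 1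
    rw [norm_one, norm_sub_rev] at this
    exact this
  have h4 := mul_le_mul_of_nonneg_left h3 (norm_nonneg a)
  linarith

lemma esc_orb {C : ℝ} (hC : 2 ≤ C) {a : ℕ → ℂ} (ha : Esc C a) {z : ℂ} (hz : C ≤ ‖z‖) (n : ℕ) :
    ‖z‖ * 4 ^ n ≤ ‖orb a n z‖ := by
  induction n with
  | zero => simp [orb_zero]
  | succ n ih =>
    rw [orb_succ]
    have h0 := st_lower (a n) (orb a n z)
    set w := orb a n z with hw
    have h1 : C * 2 ^ n ≤ ‖w‖ := by
      refine le_trans ?_ ih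
      have : (2 : ℝ) ^ n ≤ 4 ^ n := pow_le_pow_left₀ (by norm_num) (by norm_num) n
      have h2 : (0 : ℝ) < 2 ^ n := by positivity
      nlinarith
    have h2 := ha n
    have h3 : (1 : ℝ) ≤ 2 ^ n := one_le_pow₀ (by norm_num)
    have h4 : 2 ≤ ‖w‖ := by nlinarith
    have h5 : 10 ≤ ‖a n‖ * ‖w‖ := h2.trans (mul_le_mul_of_nonneg_left h1 (norm_nonneg _))
    have h6 : 4 ≤ ‖a n‖ * (‖w‖ - 1) - 1 := by nlinarith [norm_nonneg (a n)]
    calc ‖z‖ * 4 ^ (n + 1) = ‖z‖ * 4 ^ n * 4 := by ring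
      _ ≤ ‖w‖ * (‖a n‖ * (‖w‖ - 1) - 1) :=
          mul_le_mul ih h6 (by norm_num) (norm_nonneg _)
      _ ≤ _ := h0

lemma out_of_esc {C : ℝ} (hC : 2 ≤ C) {a : ℕ → ℂ} (ha : Esc C a) {z : ℂ} (hz : C ≤ ‖z‖) :
    Out a z := by
  have hlim : Tendsto (fun k : ℕ => ‖z‖ * (4 : ℝ) ^ k) atTop atTop :=
    (tendsto_pow_atTop_atTop_of_one_lt (by norm_num)).const_mul_atTop (by linarith)
  exact tendsto_atTop_mono (fun n => esc_orb hC ha hz n) hlim

lemma out_sh (a : ℕ → ℂ) (n : ℕ) (z : ℂ) : Out (sh n a) (orb a n z) ↔ Out a z := by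
  unfold Out
  simp_rw [← orb_add]
  have := tendsto_add_atTop_iff_nat (f := fun k => ‖orb a k z‖) (l := atTop) n
  rw [← this]
  simp_rw [add_comm]

/-- the standing recurrence hypothesis -/
def Rec (C : ℝ) (a : ℕ → ℂ) : Prop := ∃ᶠ n : ℕ in atTop, Esc C (sh n a)

lemma exists_of_out {C : ℝ} {a : ℕ → ℂ} (hr : Rec C a) {z : ℂ} (h : Out a z) :
    ∃ n, Esc C (sh n a) ∧ C < ‖orb a n z‖ := by
  exact (hr.and_eventually (h.eventually_gt_atTop C)).exists

/-- the non-escaping set is closed -/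
lemma isClosed_in {C : ℝ} (hC : 2 ≤ C) {a : ℕ → ℂ} (hr : Rec C a) :
    IsClosed {z : ℂ | ¬ Out a z} := by
  have : {z : ℂ | ¬ Out a z} = ⋂ n : ℕ, ⋂ _ : Esc C (sh n a), {z | ‖orb a n z‖ ≤ C} := by
    ext z
    simp only [Set.mem_ofPred_eq, Set.mem_iInter]
    constructor
    · intro h n hn
      by_contra hcon
      push Not at hcon
      exact h ((out_sh a n z).1 (out_of_esc hC hn hcon.le))
    · intro h ho
      obtain ⟨n, hn, hn2⟩ := exists_of_out hr ho
      exact absurd (h n hn) (not_le.2 hn2)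
  rw [this]
  exact isClosed_iInter fun n => isClosed_iInter fun _ =>
    isClosed_le (orb_cont a n).norm continuous_const

lemma norm_le_of_in {C : ℝ} (hC : 2 ≤ C) {a : ℕ → ℂ} (ha : Esc C a) {z : ℂ} (hz : ¬ Out a z) :
    ‖z‖ ≤ C := by
  by_contra hcon
  push Not at hcon
  exact hz (out_of_esc hC ha hcon.le)

lemma infty_mem_fatou {C : ℝ} (hC : 2 ≤ C) {a : ℕ → ℂ} (ha : Esc C a) : ∞ ∈ fatouS a := by
  refine ⟨((fun w : ℂ => (w : OnePoint ℂ)) '' Metric.closedBall 0 C)ᶜ, ?_, ?_, ?_⟩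
  · rw [OnePoint.isOpen_compl_image_coe]
    exact ⟨Metric.isClosed_closedBall, isCompact_closedBall _ _⟩
  · simp
  · intro φ hφ
    refine ⟨id, strictMono_id, fun _ => ∞, fun K hK _ ε hε => ?_⟩
    have hlim : Tendsto (fun k : ℕ => (4 : ℝ) ^ k) atTop atTop :=
      tendsto_pow_atTop_atTop_of_one_lt (by norm_num)
    obtain ⟨k0, hk0⟩ := (hlim.eventually_gt_atTop (2 / ε)).exists_forall_of_atTop
    refine ⟨k0, fun m hm w hw => ?_⟩
    induction w using OnePoint.rec with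
    | infty => rw [orbS_infty, chord_infty_infty]; exact hε
    | coe w =>
      rw [orbS_coe]
      have hwR : C ≤ ‖w‖ := by
        by_contra hcon
        push Not at hcon
        exact hK hw ⟨w, by rw [Metric.mem_closedBall, dist_zero_right]; exact hcon.le, rfl⟩
      have h1 := esc_orb hC ha hwR (φ (id m))
      have h2 : k0 ≤ φ (id m) := hm.trans (hφ.id_le m)
      have h3 := hk0 _ h2
      have h4 : (0 : ℝ) < 4 ^ (φ (id m)) := by positivity
      have h5 : (4 : ℝ) ^ (φ (id m)) ≤ ‖orb a (φ (id m)) w‖ := by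
        refine le_trans ?_ h1
        nlinarith
      refine (chord_infty_le h4 h5).trans_lt ?_
      rw [div_lt_iff₀ hε] at h3
      rw [div_lt_iff₀ h4]
      linarith

lemma out_mem_fatou {C : ℝ} (hC : 2 ≤ C) {a : ℕ → ℂ} (hr : Rec C a) {z : ℂ} (hz : Out a z) :
    (z : OnePoint ℂ) ∈ fatouS a := by
  obtain ⟨n, hn, hn2⟩ := exists_of_out hr hz
  refine ⟨(fun w : ℂ => (w : OnePoint ℂ)) '' {w | C < ‖orb a n w‖}, ?_, ⟨z, hn2, rfl⟩,
    fun φ hφ => ⟨id, strictMono_id, fun _ => ∞, fun K hK _ ε hε => ?_⟩⟩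
  · exact OnePoint.isOpenEmbedding_coe.isOpenMap _ (isOpen_lt continuous_const (orb_cont a n).norm)
  have hlim : Tendsto (fun k : ℕ => (4 : ℝ) ^ k) atTop atTop :=
    tendsto_pow_atTop_atTop_of_one_lt (by norm_num)
  obtain ⟨k0, hk0⟩ := (hlim.eventually_gt_atTop (2 / ε)).exists_forall_of_atTop
  refine ⟨n + k0, fun m hm w hw => ?_⟩
  obtain ⟨w, hwU, rfl⟩ := hK hw
  have hwU' : C < ‖orb a n w‖ := hwU
  have h2 : n + k0 ≤ φ (id m) := hm.trans (hφ.id_le m)
  obtain ⟨k, hk⟩ := Nat.exists_eq_add_of_le (show n ≤ φ (id m) by omega)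
  simp only [orbS_coe]
  rw [hk, orb_add]
  have h1 := esc_orb hC hn hwU'.le k
  have h3 := hk0 k (by omega)
  have h4 : (0 : ℝ) < 4 ^ k := by positivity
  have h5 : (4 : ℝ) ^ k ≤ ‖orb (sh n a) k (orb a n w)‖ := by
    refine le_trans ?_ h1
    nlinarith
  refine (chord_infty_le h4 h5).trans_lt ?_
  rw [div_lt_iff₀ hε] at h3
  rw [div_lt_iff₀ h4]
  linarith

/-- boundary points of the filled set are Julia points -/
lemma julia_of_boundary {C : ℝ} (hC : 2 ≤ C) {a : ℕ → ℂ} (hr : Rec C a) {z : ℂ}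
    (hz : ¬ Out a z) (hz2 : z ∈ closure {w : ℂ | Out a w}) : (z : OnePoint ℂ) ∉ fatouS a := by
  rintro ⟨U, hUo, hzU, hnorm⟩
  obtain ⟨φ, hφ, hφK⟩ := extraction_of_frequently_atTop hr
  obtain ⟨ψ, hψ, h, hconv⟩ := hnorm φ hφ
  have hS := Real.sqrt_pos.2 (by positivity : (0 : ℝ) < 1 + C ^ 2)
  set S := Real.sqrt (1 + C ^ 2) with hSdef
  set δ : ℝ := 1 / (2 * S) with hδ
  have hδ0 : 0 < δ := by positivity
  have hU' : IsOpen ((fun w : ℂ => (w : OnePoint ℂ)) ⁻¹' U) := hUo.preimage OnePoint.continuous_coe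
  obtain ⟨r0, hr0, hr0U⟩ := Metric.isOpen_iff.1 hU' z hzU
  set K : Set ℂ := Metric.closedBall z (r0 / 2) with hK
  have hKU : (fun w : ℂ => (w : OnePoint ℂ)) '' K ⊆ U := by
    rintro _ ⟨w, hw, rfl⟩
    apply hr0U
    rw [hK, Metric.mem_closedBall] at hw
    rw [Metric.mem_ball]
    linarith
  have hKc : IsCompact ((fun w : ℂ => (w : OnePoint ℂ)) '' K) :=
    (isCompact_closedBall z (r0 / 2)).image OnePoint.continuous_coe
  obtain ⟨N, hN⟩ := hconv _ hKU hKc δ hδ0
  have hN' : ∀ m ≥ N, ∀ w ∈ K, chord ((orb a (φ (ψ m)) w : ℂ) : OnePoint ℂ) (h w) < δ := by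
    intro m hm w hw
    have := hN m hm w ⟨w, hw, rfl⟩
    rwa [orbS_coe] at this
  set n := φ (ψ N) with hn
  -- the value at `z` is bounded
  have hzC : ‖orb a n z‖ ≤ C := by
    by_contra hcon
    push Not at hcon
    exact hz ((out_sh a n z).1 (out_of_esc hC (hφK (ψ N)) hcon.le))
  have hbig : 4 * δ ≤ chord ((orb a n z : ℂ) : OnePoint ℂ) ∞ := by
    rw [chord_coe_infty]
    have h1 : Real.sqrt (1 + ‖orb a n z‖ ^ 2) ≤ S := by
      apply Real.sqrt_le_sqrt
      gcongr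
    have h2 := one_le_sq (orb a n z)
    rw [hδ, le_div_iff₀ (by linarith)]
    rw [show 4 * (1 / (2 * S)) * Real.sqrt (1 + ‖orb a n z‖ ^ 2)
      = 2 * (Real.sqrt (1 + ‖orb a n z‖ ^ 2) / S) by field_simp; norm_num]
    have h3 : Real.sqrt (1 + ‖orb a n z‖ ^ 2) / S ≤ 1 := by
      rw [div_le_one hS]
      exact h1
    linarith
  -- a nearby escaping point
  have hcont := (orb_cont a n).continuousAt (x := z)
  rw [Metric.continuousAt_iff] at hcont
  obtain ⟨r1, hr1, hr1c⟩ := hcont (δ / 2) (by positivity)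
  obtain ⟨w, hwa, hwb⟩ := Metric.mem_closure_iff.1 hz2 (min r1 (r0 / 2)) (by positivity)
  rw [dist_comm] at hwb
  have hw1 : dist w z < r1 := hwb.trans_le (min_le_left _ _)
  have hwK : w ∈ K := by
    rw [hK, Metric.mem_closedBall]
    exact (hwb.trans_le (min_le_right _ _)).le
  have hd1 : chord ((orb a n z : ℂ) : OnePoint ℂ) ((orb a n w : ℂ) : OnePoint ℂ) < δ := by
    have h1 := hr1c hw1
    rw [dist_eq_norm] at h1
    have h2 := chord_coe_le (orb a n w) (orb a n z)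
    rw [chord_comm] at h2
    linarith
  have hwa' : Tendsto (fun n => ‖orb a n w‖) atTop atTop := hwa
  obtain ⟨m, hm1, hm2⟩ : ∃ m ≥ N, chord ((orb a (φ (ψ m)) w : ℂ) : OnePoint ℂ) ∞ < δ := by
    have h1 : Tendsto (fun m => φ (ψ m)) atTop atTop :=
      hφ.tendsto_atTop.comp hψ.tendsto_atTop
    have h2 := (h1.eventually (hwa'.eventually_gt_atTop (4 / δ))).and (eventually_ge_atTop N)
    obtain ⟨m, hm1, hm2⟩ := h2.exists
    refine ⟨m, hm2, ?_⟩
    have h3 := chord_infty_le (by positivity : 0 < 4 / δ) hm1.le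
    have h4 : 2 / (4 / δ) = δ / 2 := by field_simp; norm_num
    rw [h4] at h3
    linarith
  have hA := hN' N le_rfl w hwK
  have hB := hN' m hm1 w hwK
  have t1 := chord_triangle ((orb a n z : ℂ) : OnePoint ℂ) ((orb a n w : ℂ) : OnePoint ℂ) ∞
  have t2 := chord_triangle ((orb a n w : ℂ) : OnePoint ℂ) (h w) ∞
  have t3 := chord_triangle (h w) ((orb a (φ (ψ m)) w : ℂ) : OnePoint ℂ) ∞
  rw [chord_comm (h w) ((orb a (φ (ψ m)) w : ℂ) : OnePoint ℂ)] at t3
  linarith

/-- a splitting of the filled set disconnects the Julia set -/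
lemma not_preconnected_of_split {C C0 : ℝ} (hC : 2 ≤ C) (hC0 : 2 ≤ C0) {a : ℕ → ℂ} (hr : Rec C a)
    (ha : Esc C0 a) {K1 K2 : Set ℂ} (h1c : IsClosed K1) (h2c : IsClosed K2)
    (h1n : K1.Nonempty) (h2n : K2.Nonempty) (hd : Disjoint K1 K2)
    (hU : K1 ∪ K2 = {z : ℂ | ¬ Out a z}) : ¬ IsPreconnected (fatouS a)ᶜ := by
  intro hpre
  -- compactness
  have hbd : ∀ K : Set ℂ, IsClosed K → K ⊆ {z : ℂ | ¬ Out a z} → IsCompact K := by
    intro K hK hsub
    refine (isCompact_closedBall (0 : ℂ) C0).of_isClosed_subset hK fun z hz => ?_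
    rw [Metric.mem_closedBall, dist_zero_right]
    exact norm_le_of_in hC0 ha (hsub hz)
  have hs1 : K1 ⊆ {z : ℂ | ¬ Out a z} := hU ▸ Set.subset_union_left
  have hs2 : K2 ⊆ {z : ℂ | ¬ Out a z} := hU ▸ Set.subset_union_right
  have hk1 := hbd K1 h1c hs1
  have hk2 := hbd K2 h2c hs2
  -- Julia points in each piece
  have hpt : ∀ A B : Set ℂ, IsCompact A → IsClosed A → IsClosed B → A.Nonempty → Disjoint A B →
      A ∪ B = {z : ℂ | ¬ Out a z} →
      ((fatouS a)ᶜ ∩ ((fun w : ℂ => (w : OnePoint ℂ)) '' A)).Nonempty := by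
    intro A B hA hAc hB hAn hAB hABU
    have hne : A ≠ Set.univ := by
      intro h
      rw [h] at hA
      exact noncompact_univ ℂ hA
    obtain ⟨z, hz⟩ := nonempty_frontier_iff.2 ⟨hAn, hne⟩
    have hzA : z ∈ A := hAc.frontier_subset hz
    have hzB : z ∉ B := fun h => Set.disjoint_left.1 hAB hzA h
    refine ⟨(z : OnePoint ℂ), ?_, ⟨z, hzA, rfl⟩⟩
    apply julia_of_boundary hC hr
    · have : z ∈ {z : ℂ | ¬ Out a z} := hABU ▸ Or.inl hzA
      exact this
    · rw [Metric.mem_closure_iff]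
      intro ε hε
      obtain ⟨δ, hδ, hδB⟩ := Metric.isOpen_iff.1 hB.isOpen_compl z hzB
      have hzc : z ∈ closure Aᶜ := by
        rw [frontier_eq_closure_inter_closure] at hz
        exact hz.2
      obtain ⟨w, hw, hwd⟩ := Metric.mem_closure_iff.1 hzc (min ε δ) (by positivity)
      refine ⟨w, ?_, hwd.trans_le (min_le_left _ _)⟩
      have hwB : w ∉ B := hδB (by
        rw [Metric.mem_ball, dist_comm]
        exact hwd.trans_le (min_le_right _ _))
      by_contra hcon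
      have : w ∈ A ∪ B := by
        rw [hABU]
        exact hcon
      rcases this with h | h
      · exact hw h
      · exact hwB h
  have hcl : ∀ K : Set ℂ, IsCompact K → IsClosed ((fun w : ℂ => (w : OnePoint ℂ)) '' K) :=
    fun K hK => (hK.image OnePoint.continuous_coe).isClosed
  rw [isPreconnected_closed_iff] at hpre
  obtain ⟨x, -, hx1, hx2⟩ := hpre _ _ (hcl K1 hk1) (hcl K2 hk2) (by
    intro x hx
    induction x using OnePoint.rec with
    | infty => exact absurd (infty_mem_fatou hC0 ha) hx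
    | coe z =>
      have hz : z ∈ K1 ∪ K2 := by
        rw [hU]
        intro ho
        exact hx (out_mem_fatou hC hr ho)
      rcases hz with h | h
      · exact Or.inl ⟨z, h, rfl⟩
      · exact Or.inr ⟨z, h, rfl⟩)
    (hpt K1 K2 hk1 h1c h2c h1n hd hU) (hpt K2 K1 hk2 h2c h1c h2n hd.symm (by rw [Set.union_comm, hU]))
  obtain ⟨z, hz, rfl⟩ := hx1
  obtain ⟨w, hw, hwz⟩ := hx2
  have : w = z := OnePoint.coe_injective hwz
  subst this
  exact Set.disjoint_left.1 hd hz hw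

lemma st_surj (a w : ℂ) : ∃ z, st a z = w := by
  by_cases ha : a = 0
  · exact ⟨w, by rw [st, ha]; ring⟩
  · obtain ⟨s, hs⟩ := IsAlgClosed.exists_pow_nat_eq ((((1 + a) ^ 2 / (4 * a)) - w) / a)
      (n := 2) (by norm_num)
    refine ⟨(1 + a) / (2 * a) + s, ?_⟩
    have h1 : st a ((1 + a) / (2 * a) + s) = (1 + a) ^ 2 / (4 * a) - a * s ^ 2 := by
      rw [st]
      field_simp
      ring
    rw [h1, hs]
    field_simp
    ring

lemma orb_surj (a : ℕ → ℂ) (n : ℕ) (w : ℂ) : ∃ z, orb a n z = w := by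
  induction n generalizing w with
  | zero => exact ⟨w, rfl⟩
  | succ n ih =>
    obtain ⟨y, hy⟩ := st_surj (a n) w
    obtain ⟨z, hz⟩ := ih y
    exact ⟨z, by rw [orb_succ, hz, hy]⟩

/-- if a closed half plane with the critical value of the `n`-th map on its boundary escapes, the
Julia set is disconnected -/
theorem disconnected_of_halfplane {C C0 : ℝ} (hC : 2 ≤ C) (hC0 : 2 ≤ C0) {a : ℕ → ℂ}
    (hr : Rec C a) (ha : Esc C0 a) (n : ℕ) (hb : a n ≠ 0) (e : ℂ) (he0 : e ≠ 0)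
    (he : ∀ y : ℂ, (e * (y - (1 + a n) ^ 2 / (4 * a n))).re ≤ 0 → Out (sh (n + 1) a) y) :
    ¬ IsPreconnected (fatouS a)ᶜ := by
  obtain ⟨q, hq⟩ := IsAlgClosed.exists_pow_nat_eq (-(e * a n)) (n := 2) (by norm_num)
  have hq0 : q ≠ 0 := by
    rintro rfl
    have : e * a n = 0 := by
      have h : (0 : ℂ) = -(e * a n) := by rw [← hq]; norm_num
      rw [← neg_eq_zero, ← h]
    exact (mul_ne_zero he0 hb) this
  set c : ℂ := (1 + a n) / (2 * a n) with hc
  have hst : ∀ z : ℂ, st (a n) z = (1 + a n) ^ 2 / (4 * a n) - a n * (z - c) ^ 2 := by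
    intro z
    rw [st, hc]
    field_simp
    ring
  -- on the filled set the real part does not vanish
  have key : ∀ w : ℂ, ¬ Out (sh n a) w → (q * (w - c)).re ≠ 0 := by
    intro w hw hre
    apply hw
    rw [← out_sh (sh n a) 1 w, sh_sh]
    apply he
    rw [orb_succ, orb_zero]
    have h1 : sh n a 0 = a n := by simp [sh]
    rw [h1, hst]
    have h2 : e * ((1 + a n) ^ 2 / (4 * a n) - a n * (w - c) ^ 2 - (1 + a n) ^ 2 / (4 * a n))
        = (q * (w - c)) ^ 2 := by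
      rw [mul_pow, hq]
      ring
    rw [h2, sq, Complex.mul_re, hre]
    nlinarith [sq_nonneg (q * (w - c)).im]
  have hrn : Rec C a := hr
  -- the pieces
  have hcont : Continuous fun z : ℂ => (q * (orb a n z - c)).re :=
    Complex.continuous_re.comp (continuous_const.mul ((orb_cont a n).sub continuous_const))
  have hK := isClosed_in hC hr
  refine not_preconnected_of_split hC hC0 hr ha
    (K1 := {z : ℂ | ¬ Out a z} ∩ {z | 0 ≤ (q * (orb a n z - c)).re})
    (K2 := {z : ℂ | ¬ Out a z} ∩ {z | (q * (orb a n z - c)).re ≤ 0})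
    (hK.inter (isClosed_le continuous_const hcont)) (hK.inter (isClosed_le hcont continuous_const))
    ?_ ?_ ?_ ?_
  all_goals try
    have hw : ∀ w : ℂ, ¬ Out (sh n a) w → ¬ Out (sh n a) (2 * c - w) := by
      intro w hw ho
      apply hw
      rw [← out_sh (sh n a) 1] at ho ⊢
      rw [orb_succ, orb_zero] at ho ⊢
      have h1 : sh n a 0 = a n := by simp [sh]
      rw [h1, hst] at ho ⊢
      have h2 : (2 * c - w - c) ^ 2 = (w - c) ^ 2 := by ring
      rwa [h2] at ho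
    have h0 : ¬ Out (sh n a) 0 := by
      intro h
      have h1 := h.eventually_gt_atTop 0
      obtain ⟨k, hk⟩ := h1.exists
      rw [orb_fix_zero, norm_zero] at hk
      exact lt_irrefl _ hk
    have hre : ∀ w : ℂ, (q * (2 * c - w - c)).re = -(q * (w - c)).re := by
      intro w
      rw [← Complex.neg_re]
      congr 1
      ring
  · rcases le_total 0 (q * (0 - c)).re with h | h
    · obtain ⟨z, hz⟩ := orb_surj a n 0
      exact ⟨z, by rw [Set.mem_ofPred_eq, ← out_sh a n z, hz]; exact h0, by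
        rw [Set.mem_ofPred_eq, hz]; exact h⟩
    · obtain ⟨z, hz⟩ := orb_surj a n (2 * c - 0)
      exact ⟨z, by rw [Set.mem_ofPred_eq, ← out_sh a n z, hz]; exact hw 0 h0, by
        rw [Set.mem_ofPred_eq, hz, hre]; linarith⟩
  · rcases le_total (q * (0 - c)).re 0 with h | h
    · obtain ⟨z, hz⟩ := orb_surj a n 0
      exact ⟨z, by rw [Set.mem_ofPred_eq, ← out_sh a n z, hz]; exact h0, by
        rw [Set.mem_ofPred_eq, hz]; exact h⟩
    · obtain ⟨z, hz⟩ := orb_surj a n (2 * c - 0)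
      exact ⟨z, by rw [Set.mem_ofPred_eq, ← out_sh a n z, hz]; exact hw 0 h0, by
        rw [Set.mem_ofPred_eq, hz, hre]; linarith⟩
  · rw [Set.disjoint_left]
    rintro z ⟨hz, hz1⟩ ⟨-, hz2⟩
    have hz' : ¬ Out a z := hz
    rw [← out_sh a n z] at hz'
    exact key _ hz' (le_antisymm hz2 hz1)
  · rw [← Set.inter_union_distrib_left]
    apply Set.inter_eq_left.2
    intro z _
    rcases le_total 0 (q * (orb a n z - c)).re with h | h
    · exact Or.inl h
    · exact Or.inr h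

end Pool.Agent.R239.Kan
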