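import Mathlib

/-!
# Measure lemmas for the base map
-/

set_option autoImplicit false

namespace Pool.Agent.R239.Kan

open Filter Topology MeasureTheory

/-- the real cosine along the base orbit -/
noncomputable def cr (L n : ℕ) (x : ℝ) : ℝ := Real.cos (2 * Real.pi * ((L : ℝ) ^ n * x))

lemma cr_cont (L n : ℕ) : Continuous (cr L n) := by
  unfold cr
  fun_prop

lemma cr_periodic (L n : ℕ) (x : ℝ) : cr L n (x + 1) = cr L n x := by
  unfold cr
  have : 2 * Real.pi * ((L : ℝ) ^ n * (x + 1))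
      = 2 * Real.pi * ((L : ℝ) ^ n * x) + ((L ^ n : ℕ) : ℝ) * (2 * Real.pi) := by
    push_cast; ring
  rw [this, Real.cos_add_nat_mul_two_pi]

lemma cr_abs_le (L n : ℕ) (x : ℝ) : |cr L n x| ≤ 1 := Real.abs_cos_le_one _

lemma cr_shift (L n k : ℕ) (x : ℝ) : cr L k ((L : ℝ) ^ n * x) = cr L (n + k) x := by
  unfold cr
  rw [pow_add]
  ring_nf

/-- escape-good base points -/
def GE (L : ℕ) (M : ℝ) : Set ℝ := {v | ∀ k : ℕ, 1 / (M * 2 ^ k) ≤ |cr L k v|}

lemma integral_periodic_scale {h : ℝ → ℝ} (hp : Function.Periodic h 1)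
    (hm : Measurable h) (C : ℝ) (hb : ∀ x, |h x| ≤ C) (a N : ℝ) (hN : 0 < N) (p : ℕ) :
    ∫ x in a..(a + p / N), h (N * x) = (p / N) * ∫ x in (0 : ℝ)..1, h x := by
  have hint : ∀ a b : ℝ, IntervalIntegrable h volume a b := by
    intro a b
    refine (intervalIntegrable_const (c := C)).mono_fun hm.aestronglyMeasurable ?_
    filter_upwards with x
    rw [Real.norm_eq_abs, Real.norm_eq_abs]
    exact (hb x).trans (le_abs_self _)
  rw [intervalIntegral.integral_comp_mul_left (fun x => h x) hN.ne']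
  have h1 : N * (a + p / N) = N * a + (p : ℤ) • (1 : ℝ) := by
    simp only [zsmul_eq_mul, mul_one, Int.cast_natCast]
    field_simp
  rw [h1, hp.intervalIntegral_add_zsmul_eq (p : ℤ) (N * a) hint]
  have h2 := hp.intervalIntegral_add_eq (N * a) 0
  rw [zero_add] at h2
  rw [h2]
  simp only [zsmul_eq_mul, smul_eq_mul, Int.cast_natCast]
  ring

lemma volume_periodic_scale {G : Set ℝ} (hG : MeasurableSet G) (hGp : ∀ x, x + 1 ∈ G ↔ x ∈ G)
    (a N : ℝ) (hN : 0 < N) (p : ℕ) :
    volume {x | x ∈ Set.Icc a (a + p / N) ∧ N * x ∈ G}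
      = ENNReal.ofReal (p / N) * volume (G ∩ Set.Ioc 0 1) := by
  have hperiodic : Function.Periodic (G.indicator (fun _ => (1 : ℝ))) 1 := by
    intro x
    by_cases hx : x ∈ G
    · rw [Set.indicator_of_mem hx, Set.indicator_of_mem ((hGp x).2 hx)]
    · rw [Set.indicator_of_notMem hx, Set.indicator_of_notMem (fun h => hx ((hGp x).1 h))]
  have hmeas : Measurable (G.indicator (fun _ => (1 : ℝ))) := measurable_const.indicator hG
  have hb : ∀ x, |G.indicator (fun _ => (1 : ℝ)) x| ≤ 1 := by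
    intro x
    by_cases hx : x ∈ G
    · rw [Set.indicator_of_mem hx]; simp
    · rw [Set.indicator_of_notMem hx]; simp
  have key := integral_periodic_scale hperiodic hmeas 1 hb a N hN p
  have hle : a ≤ a + p / N := by
    have : 0 ≤ (p : ℝ) / N := by positivity
    linarith
  have hGN : MeasurableSet {x : ℝ | N * x ∈ G} := (measurable_const_mul N) hG
  have e1 : ∫ x in a..(a + p / N), G.indicator (fun _ => (1 : ℝ)) (N * x)
      = (volume {x | x ∈ Set.Ioc a (a + p / N) ∧ N * x ∈ G}).toReal := by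
    rw [intervalIntegral.integral_of_le hle]
    have : (fun x => G.indicator (fun _ => (1 : ℝ)) (N * x))
        = {x : ℝ | N * x ∈ G}.indicator (fun _ => (1 : ℝ)) := by
      ext x
      by_cases h : N * x ∈ G
      · have h' : x ∈ {x : ℝ | N * x ∈ G} := h
        rw [Set.indicator_of_mem h, Set.indicator_of_mem h']
      · have h' : x ∉ {x : ℝ | N * x ∈ G} := h
        rw [Set.indicator_of_notMem h, Set.indicator_of_notMem h']
    rw [this, integral_indicator hGN, setIntegral_const, smul_eq_mul, mul_one, Measure.real,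
      Measure.restrict_apply hGN]
    congr 2
    ext x
    exact and_comm
  have e2 : ∫ x in (0 : ℝ)..1, G.indicator (fun _ => (1 : ℝ)) x
      = (volume (G ∩ Set.Ioc 0 1)).toReal := by
    rw [intervalIntegral.integral_of_le zero_le_one, integral_indicator hG, setIntegral_const,
      smul_eq_mul, mul_one, Measure.real, Measure.restrict_apply hG]
  rw [e1, e2] at key
  have hfin1 : volume {x | x ∈ Set.Ioc a (a + p / N) ∧ N * x ∈ G} ≠ ⊤ := by
    refine ne_top_of_le_ne_top ?_ (measure_mono (t := Set.Ioc a (a + p / N)) fun x hx => hx.1)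
    rw [Real.volume_Ioc]; exact ENNReal.ofReal_ne_top
  have hfin2 : volume (G ∩ Set.Ioc 0 1) ≠ ⊤ := by
    refine ne_top_of_le_ne_top ?_ (measure_mono Set.inter_subset_right)
    rw [Real.volume_Ioc]; exact ENNReal.ofReal_ne_top
  have e3 : volume {x | x ∈ Set.Icc a (a + p / N) ∧ N * x ∈ G}
      = volume {x | x ∈ Set.Ioc a (a + p / N) ∧ N * x ∈ G} := by
    apply measure_congr
    have h1 : Set.Ioc a (a + p / N) =ᵐ[volume] Set.Icc a (a + p / N) := Ioc_ae_eq_Icc
    have h2 := h1.symm.inter (Filter.EventuallyEq.refl (ae volume) {x : ℝ | N * x ∈ G})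
    exact h2
  rw [e3, ← ENNReal.ofReal_toReal hfin1, key, ENNReal.ofReal_mul (by positivity),
    ENNReal.ofReal_toReal hfin2]

lemma GE_closed (L : ℕ) (M : ℝ) : IsClosed (GE L M) := by
  have : GE L M = ⋂ k : ℕ, {v | 1 / (M * 2 ^ k) ≤ |cr L k v|} := by
    ext v; simp [GE]
  rw [this]
  exact isClosed_iInter fun k => isClosed_le continuous_const (cr_cont L k).abs

lemma GE_periodic (L : ℕ) (M : ℝ) (x : ℝ) : x + 1 ∈ GE L M ↔ x ∈ GE L M := by
  unfold GE
  constructor
  · intro h k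
    have := h k
    rwa [cr_periodic] at this
  · intro h k
    have := h k
    rwa [← cr_periodic] at this

lemma cos_meas {t : ℝ} (ht : 0 < t) :
    volume ({x : ℝ | |Real.cos (2 * Real.pi * x)| < t} ∩ Set.Ioc 0 1) ≤ ENNReal.ofReal t := by
  have hpi := Real.pi_pos
  have key : ∀ d : ℝ, |d| ≤ 1 / 4 → 4 * |d| ≤ |Real.sin (2 * Real.pi * d)| := by
    intro d hd
    have h1 : Real.sin (2 * Real.pi * |d|) ≤ |Real.sin (2 * Real.pi * d)| := by
      rcases abs_cases d with ⟨h, _⟩ | ⟨h, _⟩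
      · rw [h]; exact le_abs_self _
      · rw [h, mul_neg, Real.sin_neg]; exact neg_le_abs _
    have h2 := Real.mul_le_sin (x := 2 * Real.pi * |d|) (by positivity) (by nlinarith)
    have h3 : 2 / Real.pi * (2 * Real.pi * |d|) = 4 * |d| := by field_simp; ring
    linarith
  have hsub : ({x : ℝ | |Real.cos (2 * Real.pi * x)| < t} ∩ Set.Ioc 0 1)
      ⊆ Metric.ball (1 / 4 : ℝ) (t / 4) ∪ Metric.ball (3 / 4 : ℝ) (t / 4) := by
    rintro x ⟨hx1, hx2, hx3⟩
    have hx1' : |Real.cos (2 * Real.pi * x)| < t := hx1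
    rcases le_or_gt x (1 / 2) with h | h
    · left
      rw [Metric.mem_ball, Real.dist_eq]
      have h1 : Real.cos (2 * Real.pi * x) = -Real.sin (2 * Real.pi * (x - 1 / 4)) := by
        rw [← Real.cos_add_pi_div_two]; congr 1; ring
      rw [h1, abs_neg] at hx1'
      have := key (x - 1 / 4) (by rw [abs_le]; constructor <;> linarith)
      linarith
    · right
      rw [Metric.mem_ball, Real.dist_eq]
      have h1 : Real.cos (2 * Real.pi * x) = Real.sin (2 * Real.pi * (x - 3 / 4)) := by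
        rw [← Real.cos_sub_pi_div_two]
        rw [← Real.cos_sub_two_pi (2 * Real.pi * x)]
        rw [← Real.cos_neg]
        have : -(2 * Real.pi * x - 2 * Real.pi) = 2 * Real.pi - 2 * Real.pi * x := by ring
        rw [← Real.cos_neg (2 * Real.pi * (x - 3 / 4) - Real.pi / 2)]
        congr 1
        ring
      rw [h1] at hx1'
      have := key (x - 3 / 4) (by rw [abs_le]; constructor <;> linarith)
      linarith
  refine (measure_mono hsub).trans ((measure_union_le _ _).trans ?_)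
  rw [Real.volume_ball, Real.volume_ball, ← ENNReal.ofReal_add (by positivity) (by positivity)]
  apply ENNReal.ofReal_le_ofReal
  linarith

lemma GE_compl {L : ℕ} (hL : 0 < L) {M : ℝ} (hM : 0 < M) :
    volume ((GE L M)ᶜ ∩ Set.Ioc 0 1) ≤ ENNReal.ofReal (2 / M) := by
  have hL0 : (0 : ℝ) < L := by exact_mod_cast hL
  have hsub : (GE L M)ᶜ ∩ Set.Ioc 0 1 ⊆ ⋃ k : ℕ, {x | x ∈ Set.Icc (0 : ℝ) (0 + ((L ^ k : ℕ) : ℝ) /
      (L : ℝ) ^ k) ∧ (L : ℝ) ^ k * x ∈ {y : ℝ | |Real.cos (2 * Real.pi * y)| < 1 / (M * 2 ^ k)}} := by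
    rintro x ⟨hx1, hx2⟩
    have : ∃ k : ℕ, |cr L k x| < 1 / (M * 2 ^ k) := by
      by_contra hcon
      push Not at hcon
      exact hx1 hcon
    obtain ⟨k, hk⟩ := this
    rw [Set.mem_iUnion]
    refine ⟨k, ⟨hx2.1.le, ?_⟩, hk⟩
    have : ((L ^ k : ℕ) : ℝ) / (L : ℝ) ^ k = 1 := by
      push_cast
      exact div_self (by positivity)
    rw [this, zero_add]
    exact hx2.2
  refine (measure_mono hsub).trans ((measure_iUnion_le _).trans ?_)
  have hk : ∀ k : ℕ, volume {x | x ∈ Set.Icc (0 : ℝ) (0 + ((L ^ k : ℕ) : ℝ) /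
      (L : ℝ) ^ k) ∧ (L : ℝ) ^ k * x ∈ {y : ℝ | |Real.cos (2 * Real.pi * y)| < 1 / (M * 2 ^ k)}}
      ≤ ENNReal.ofReal (1 / M * (1 / 2) ^ k) := by
    intro k
    have hm : MeasurableSet {y : ℝ | |Real.cos (2 * Real.pi * y)| < 1 / (M * 2 ^ k)} := by
      apply IsOpen.measurableSet
      apply isOpen_lt _ continuous_const
      fun_prop
    rw [volume_periodic_scale hm (fun y => by
      change |Real.cos (2 * Real.pi * (y + 1))| < _ ↔ |Real.cos (2 * Real.pi * y)| < _
      rw [mul_add, mul_one, Real.cos_add_two_pi]) 0 _ (by positivity) (L ^ k)]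
    have : ((L ^ k : ℕ) : ℝ) / (L : ℝ) ^ k = 1 := by
      push_cast
      exact div_self (by positivity)
    rw [this, ENNReal.ofReal_one, one_mul]
    refine (cos_meas (by positivity)).trans (le_of_eq ?_)
    congr 1
    rw [one_div_pow]
    field_simp
  refine (ENNReal.tsum_le_tsum hk).trans ?_
  rw [← ENNReal.ofReal_tsum_of_nonneg (fun k => by positivity)
    ((summable_geometric_of_lt_one (by norm_num) (by norm_num)).mul_left _)]
  apply ENNReal.ofReal_le_ofReal
  rw [tsum_mul_left, tsum_geometric_of_lt_one (by norm_num) (by norm_num)]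
  apply le_of_eq
  field_simp
  norm_num

lemma ae_real_of_circle {P : UnitAddCircle → Prop} (h : ∀ᵐ y, P y) :
    ∀ᵐ x : ℝ, P (x : UnitAddCircle) := by
  have h1 : ∀ n : ℤ, ∀ᵐ x : ℝ ∂(volume.restrict (Set.Ioc (n : ℝ) (n + 1))), P (x : UnitAddCircle) :=
    fun n => (UnitAddCircle.measurePreserving_mk (n : ℝ)).quasiMeasurePreserving.ae h
  have h2 := (ae_restrict_iUnion_iff (μ := (volume : Measure ℝ))
    (fun n : ℤ => Set.Ioc (n : ℝ) (n + 1)) (fun x : ℝ => P (x : UnitAddCircle))).2 h1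
  rw [iUnion_Ioc_intCast, Measure.restrict_univ] at h2
  exact h2

lemma iter_coe {L : ℕ} (k : ℕ) (x : ℝ) :
    (fun y : UnitAddCircle => L • y)^[k] (x : UnitAddCircle) = (((L : ℝ) ^ k * x : ℝ) : UnitAddCircle) := by
  induction k with
  | zero => simp
  | succ k ih =>
    rw [Function.iterate_succ_apply', ih]
    rw [← AddCircle.coe_nsmul, nsmul_eq_mul]
    congr 1
    ring

lemma ae_GE {L : ℕ} (hL : 0 < L) : ∀ᵐ v : ℝ, ∃ i : ℕ, v ∈ GE L ((i : ℝ) + 1) := by
  set B : Set ℝ := {v | ∀ i : ℕ, v ∉ GE L ((i : ℝ) + 1)} with hB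
  have hBm : MeasurableSet B := by
    have : B = ⋂ i : ℕ, (GE L ((i : ℝ) + 1))ᶜ := by ext v; simp [hB]
    rw [this]
    exact MeasurableSet.iInter fun i => (GE_closed _ _).measurableSet.compl
  have hBp : ∀ x, x + 1 ∈ B ↔ x ∈ B := fun x => forall_congr' fun i => not_congr (GE_periodic _ _ x)
  have h0 : volume (B ∩ Set.Ioc 0 1) = 0 := by
    apply le_antisymm _ bot_le
    have hlim : Tendsto (fun i : ℕ => ENNReal.ofReal (2 / ((i : ℝ) + 1))) atTop (𝓝 0) := by
      rw [← ENNReal.ofReal_zero]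
      apply ENNReal.tendsto_ofReal
      exact tendsto_const_nhds.div_atTop
        (tendsto_atTop_add_const_right _ _ tendsto_natCast_atTop_atTop)
    refine ge_of_tendsto' hlim fun i => ?_
    refine (measure_mono ?_).trans (GE_compl (L := L) hL (M := (i : ℝ) + 1) (by positivity))
    exact Set.inter_subset_inter_left _ fun v hv => hv i
  have hloc : ∀ a : ℤ, volume (B ∩ Set.Icc (a : ℝ) (a + 1)) = 0 := by
    intro a
    have h1 := volume_periodic_scale hBm hBp (a : ℝ) 1 one_pos 1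
    rw [h0, mul_zero] at h1
    refine measure_mono_null ?_ h1
    rintro x ⟨hx1, hx2⟩
    refine ⟨by simpa using hx2, by simpa using hx1⟩
  refine measure_mono_null ?_ (measure_iUnion_null hloc)
  intro u hu
  have hu' : ¬ ∃ i : ℕ, u ∈ GE L ((i : ℝ) + 1) := hu
  push Not at hu'
  refine Set.mem_iUnion.2 ⟨⌊u⌋, hu', Int.floor_le u, (Int.lt_floor_add_one u).le⟩

lemma GE_mono {L : ℕ} {M M' : ℝ} (hM : 0 < M) (h : M ≤ M') : GE L M ⊆ GE L M' := by
  intro v hv k
  refine le_trans ?_ (hv k)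
  gcongr

/-- infinitely many good times -/
lemma ae_frequently {L : ℕ} (hL : 0 < L) {K : ℕ → Set ℝ} (hKm : ∀ i, MeasurableSet (K i))
    (hKp : ∀ i x, x + 1 ∈ K i ↔ x ∈ K i) (hmono : Monotone K)
    (hK : ∀ᵐ v : ℝ, ∃ i, v ∈ K i) :
    ∀ᵐ u : ℝ, ∃ i, ∃ᶠ n : ℕ in atTop, (L : ℝ) ^ n * u ∈ K i := by
  have hL0 : (0 : ℝ) < L := by exact_mod_cast hL
  -- complements are small
  have hsmall : Tendsto (fun i => volume ((K i)ᶜ ∩ Set.Ioc 0 1)) atTop (𝓝 0) := by
    have h1 := tendsto_measure_iInter_atTop (μ := (volume : Measure ℝ))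
      (s := fun i => (K i)ᶜ ∩ Set.Ioc 0 1)
      (fun i => ((hKm i).compl.inter measurableSet_Ioc).nullMeasurableSet)
      (fun i j hij => Set.inter_subset_inter_left _ (Set.compl_subset_compl.2 (hmono hij)))
      ⟨0, by
        refine ne_top_of_le_ne_top ?_ (measure_mono Set.inter_subset_right)
        rw [Real.volume_Ioc]; exact ENNReal.ofReal_ne_top⟩
    have h2 : volume (⋂ i, ((K i)ᶜ ∩ Set.Ioc (0 : ℝ) 1)) = 0 := by
      refine measure_mono_null ?_ hK
      rintro v hv ⟨i, hi⟩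
      exact (Set.mem_iInter.1 hv i).1 hi
    rw [h2] at h1
    exact h1
  -- on each unit interval
  have hloc : ∀ a : ℤ, volume ({u : ℝ | ¬ ∃ i, ∃ᶠ n : ℕ in atTop, (L : ℝ) ^ n * u ∈ K i}
      ∩ Set.Icc (a : ℝ) (a + 1)) = 0 := by
    intro a
    apply le_antisymm _ bot_le
    refine ge_of_tendsto' hsmall fun i => ?_
    set B : ℕ → Set ℝ := fun N => {u | ∀ n ≥ N, (L : ℝ) ^ n * u ∉ K i} ∩ Set.Icc (a : ℝ) (a + 1)
      with hB
    have hBmono : Monotone B := by
      intro N N' hNN u hu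
      exact ⟨fun n hn => hu.1 n (hNN.trans hn), hu.2⟩
    have hsub : {u : ℝ | ¬ ∃ i, ∃ᶠ n : ℕ in atTop, (L : ℝ) ^ n * u ∈ K i}
        ∩ Set.Icc (a : ℝ) (a + 1) ⊆ ⋃ N, B N := by
      rintro u ⟨hu1, hu2⟩
      have hu1' : ¬ ∃ i, ∃ᶠ n : ℕ in atTop, (L : ℝ) ^ n * u ∈ K i := hu1
      push Not at hu1'
      have h3 := hu1' i
      rw [eventually_atTop] at h3
      obtain ⟨N, hN⟩ := h3
      exact Set.mem_iUnion.2 ⟨N, hN, hu2⟩
    refine (measure_mono hsub).trans ?_
    rw [hBmono.measure_iUnion]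
    apply iSup_le
    intro N
    have h4 : B N ⊆ {x | x ∈ Set.Icc (a : ℝ) (a + ((L ^ N : ℕ) : ℝ) / (L : ℝ) ^ N) ∧
        (L : ℝ) ^ N * x ∈ (K i)ᶜ} := by
      rintro u ⟨hu1, hu2⟩
      have : ((L ^ N : ℕ) : ℝ) / (L : ℝ) ^ N = 1 := by
        push_cast
        exact div_self (by positivity)
      rw [← this] at hu2
      exact ⟨hu2, hu1 N le_rfl⟩
    refine (measure_mono h4).trans ?_
    rw [volume_periodic_scale (hKm i).compl (fun x => not_congr (hKp i x)) _ _ (by positivity)]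
    have : ((L ^ N : ℕ) : ℝ) / (L : ℝ) ^ N = 1 := by
      push_cast
      exact div_self (by positivity)
    rw [this, ENNReal.ofReal_one, one_mul]
  have hall : volume (⋃ a : ℤ, ({u : ℝ | ¬ ∃ i, ∃ᶠ n : ℕ in atTop, (L : ℝ) ^ n * u ∈ K i}
      ∩ Set.Icc (a : ℝ) (a + 1))) = 0 := measure_iUnion_null hloc
  refine measure_mono_null ?_ hall
  intro u hu
  refine Set.mem_iUnion.2 ⟨⌊u⌋, hu, Int.floor_le u, (Int.lt_floor_add_one u).le⟩


/-- almost every orbit visits a compact set of positive measure -/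
lemma ae_visit {L : ℕ} (hL : 1 < L) {S : Set ℝ} (hS : IsCompact S) (hpos : volume S ≠ 0) :
    ∀ᵐ u : ℝ, ∃ n : ℕ, ∃ k : ℤ, ∃ s ∈ S, (L : ℝ) ^ n * u = s + k := by
  have : IsProbabilityMeasure (volume : Measure UnitAddCircle) := ⟨UnitAddCircle.measure_univ⟩
  have hT := AddCircle.ergodic_nsmul (T := 1) hL
  set T : UnitAddCircle → UnitAddCircle := fun y => L • y with hTdef
  set S' : Set UnitAddCircle := (fun x : ℝ => (x : UnitAddCircle)) '' S with hS'
  have hcoe : Continuous fun x : ℝ => (x : UnitAddCircle) := AddCircle.continuous_mk' 1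
  have hS'c : IsCompact S' := hS.image hcoe
  have hS'm : MeasurableSet S' := hS'c.isClosed.measurableSet
  have hS'pos : volume S' ≠ 0 := by
    intro h0
    apply hpos
    have h1 : ∀ᵐ y : UnitAddCircle, y ∉ S' := measure_eq_zero_iff_ae_notMem.1 h0
    have h2 := ae_real_of_circle h1
    refine measure_mono_null (fun x hx => ?_) h2
    intro hcon
    exact hcon ⟨x, hx, rfl⟩
  set D : Set UnitAddCircle := ⋃ n : ℕ, (T^[n]) ⁻¹' S' with hD
  have hDm : MeasurableSet D := MeasurableSet.iUnion fun n => (hT.measurable.iterate n) hS'm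
  have hTD : T ⁻¹' D ⊆ D := by
    rintro y hy
    rw [Set.mem_preimage, hD, Set.mem_iUnion] at hy
    obtain ⟨n, hn⟩ := hy
    rw [hD, Set.mem_iUnion]
    exact ⟨n + 1, by rw [Set.mem_preimage, Function.iterate_succ_apply]; exact hn⟩
  have hDall : ∀ᵐ y : UnitAddCircle, y ∈ D := by
    rcases hT.ae_empty_or_univ_of_preimage_ae_le hDm.nullMeasurableSet
      (LE.le.eventuallyLE hTD) with h | h
    · exfalso
      apply hS'pos
      have h1 : volume D = 0 := by rw [measure_congr h, measure_empty]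
      refine measure_mono_null (fun y hy => ?_) h1
      rw [hD, Set.mem_iUnion]
      exact ⟨0, hy⟩
    · filter_upwards [h] with y hy
      have : D y = (Set.univ : Set UnitAddCircle) y := hy
      exact this.mpr trivial
  filter_upwards [ae_real_of_circle hDall] with u hu
  rw [hD, Set.mem_iUnion] at hu
  obtain ⟨n, hn⟩ := hu
  rw [Set.mem_preimage, hTdef, iter_coe] at hn
  obtain ⟨s, hs, hsu⟩ := hn
  have h3 : ((((L : ℝ) ^ n * u - s : ℝ)) : UnitAddCircle) = 0 := by
    have h4 : ((s : ℝ) : UnitAddCircle) = (((L : ℝ) ^ n * u : ℝ) : UnitAddCircle) := hsu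
    rw [AddCircle.coe_sub, h4, sub_self]
  rw [AddCircle.coe_eq_zero_iff] at h3
  obtain ⟨k, hk⟩ := h3
  refine ⟨n, k, s, hs, ?_⟩
  rw [zsmul_eq_mul, mul_one] at hk
  linarith

end Pool.Agent.R239.Kan
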