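import Pool.Agent.R239.Kan.Det
import Pool.Agent.R239.Kan.Meas

/-!
# A half plane of escaping points near the base point 1/4
-/

set_option autoImplicit false

namespace Pool.Agent.R239.Kan

open Filter Topology MeasureTheory

/-- the coefficient sequence over `u` -/
noncomputable def aseq (L : ℕ) (α : ℂ) (u : ℝ) : ℕ → ℂ := fun n => α * (cr L n u : ℂ)

lemma norm_aseq (L : ℕ) (α : ℂ) (u : ℝ) (n : ℕ) : ‖aseq L α u n‖ = ‖α‖ * |cr L n u| := by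
  rw [aseq, norm_mul, Complex.norm_real, Real.norm_eq_abs]

lemma sh_aseq (L : ℕ) (α : ℂ) (u : ℝ) (n : ℕ) : sh n (aseq L α u) = aseq L α ((L : ℝ) ^ n * u) := by
  funext k
  simp only [sh, aseq]
  rw [cr_shift]

lemma cr_add_int (L n : ℕ) (x : ℝ) (k : ℤ) : cr L n (x + k) = cr L n x := by
  unfold cr
  have : 2 * Real.pi * ((L : ℝ) ^ n * (x + k))
      = 2 * Real.pi * ((L : ℝ) ^ n * x) + ((L ^ n * k : ℤ) : ℝ) * (2 * Real.pi) := by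
    push_cast; ring
  rw [this, Real.cos_add_int_mul_two_pi]

lemma aseq_add_int (L : ℕ) (α : ℂ) (x : ℝ) (k : ℤ) : aseq L α (x + k) = aseq L α x := by
  funext n
  rw [aseq, cr_add_int]
  rfl

/-- the escape constant attached to `GE` -/
noncomputable def CE (α : ℂ) (M : ℝ) : ℝ := max 2 (10 * M / ‖α‖)

lemma esc_of_GE {L : ℕ} {α : ℂ} {M : ℝ} (hα : 0 < ‖α‖) (hM : 0 < M) {v : ℝ} (hv : v ∈ GE L M) :
    Esc (CE α M) (aseq L α v) := by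
  intro n
  rw [norm_aseq]
  have h1 : 1 / (M * 2 ^ n) ≤ |cr L n v| := hv n
  have h2 : 10 * M / ‖α‖ ≤ CE α M := le_max_right _ _
  calc (10 : ℝ) = ‖α‖ * (1 / (M * 2 ^ n)) * ((10 * M / ‖α‖) * 2 ^ n) := by field_simp
    _ ≤ ‖α‖ * |cr L n v| * (CE α M * 2 ^ n) := by gcongr

lemma two_le_CE (α : ℂ) (M : ℝ) : 2 ≤ CE α M := le_max_left _ _

/-- angle -/
noncomputable def th (L : ℕ) (δ : ℝ) (n : ℕ) : ℝ := 2 * Real.pi * ((L : ℝ) ^ n * δ)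

lemma cr_even {L : ℕ} (hL : Even L) (δ : ℝ) {n : ℕ} (hn : n ≠ 0) :
    |cr L n (1 / 4 + δ)| = |Real.cos (th L δ n)| := by
  obtain ⟨k, hk⟩ : Even (L ^ n) := (Nat.even_pow.2 ⟨hL, hn⟩)
  have h1 : ((L : ℝ) ^ n) = k + k := by exact_mod_cast hk
  have h2 : 2 * Real.pi * ((L : ℝ) ^ n * (1 / 4 + δ)) = th L δ n + k * Real.pi := by
    rw [th, mul_add ((L : ℝ) ^ n), mul_add (2 * Real.pi)]
    have : 2 * Real.pi * ((L : ℝ) ^ n * (1 / 4)) = k * Real.pi := by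
      rw [h1]; ring
    rw [this]; ring
  rw [cr, h2, Real.cos_add_nat_mul_pi, abs_mul, abs_pow, abs_neg, abs_one, one_pow, one_mul]

lemma cr_odd {L : ℕ} (δ : ℝ) {n : ℕ} {k : ℕ} (hk : L ^ n = 2 * k + 1) :
    cr L n (1 / 4 + δ) = -((-1) ^ k * Real.sin (th L δ n)) := by
  have h1 : ((L : ℝ) ^ n) = 2 * k + 1 := by exact_mod_cast hk
  have h2 : 2 * Real.pi * ((L : ℝ) ^ n * (1 / 4 + δ))
      = (th L δ n + k * Real.pi) + Real.pi / 2 := by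
    rw [th, mul_add ((L : ℝ) ^ n), mul_add (2 * Real.pi)]
    have : 2 * Real.pi * ((L : ℝ) ^ n * (1 / 4)) = k * Real.pi + Real.pi / 2 := by
      rw [h1]; ring
    rw [this]; ring
  rw [cr, h2, Real.cos_add_pi_div_two, Real.sin_add_nat_mul_pi]

lemma cr_odd_abs {L : ℕ} (δ : ℝ) {n : ℕ} (hL : Odd (L ^ n)) :
    |cr L n (1 / 4 + δ)| = |Real.sin (th L δ n)| := by
  obtain ⟨k, hk⟩ := hL
  rw [cr_odd δ hk, abs_neg, abs_mul, abs_pow, abs_neg, abs_one, one_pow, one_mul]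

lemma th_succ (L : ℕ) (δ : ℝ) (n : ℕ) : th L δ (n + 1) = L * th L δ n := by
  rw [th, th]; ring

lemma th_pos {L : ℕ} (hL : 0 < L) {δ : ℝ} (hδ : 0 < δ) (n : ℕ) : 0 < th L δ n := by
  have : (0 : ℝ) < L := by exact_mod_cast hL
  have := Real.pi_pos
  unfold th
  positivity

/-- smallness of the angles -/
lemma th_le {L : ℕ} (hL : 0 < L) {δ : ℝ} {n1 : ℕ} (hδ : δ ≤ 1 / 100 / (L : ℝ) ^ n1) (k : ℕ)
    (n : ℕ) (hn : n + k ≤ n1) : th L δ n * (L : ℝ) ^ k ≤ 0.0629 := by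
  have hL0 : (0 : ℝ) < L := by exact_mod_cast hL
  have hL1 : (1 : ℝ) ≤ L := by exact_mod_cast hL
  have hpi := Real.pi_pos
  have hpi2 := Real.pi_lt_d4
  have h1 : (L : ℝ) ^ n * (L : ℝ) ^ k ≤ (L : ℝ) ^ n1 := by
    rw [← pow_add]
    exact pow_le_pow_right₀ hL1 hn
  unfold th
  have h2 : (L : ℝ) ^ n * (L : ℝ) ^ k * δ ≤ 1 / 100 := by
    calc (L : ℝ) ^ n * (L : ℝ) ^ k * δ ≤ (L : ℝ) ^ n * (L : ℝ) ^ k * (1 / 100 / (L : ℝ) ^ n1) := by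
          gcongr
      _ ≤ (L : ℝ) ^ n1 * (1 / 100 / (L : ℝ) ^ n1) := by gcongr
      _ = 1 / 100 := by field_simp
  calc 2 * Real.pi * ((L : ℝ) ^ n * δ) * (L : ℝ) ^ k
      = 2 * Real.pi * ((L : ℝ) ^ n * (L : ℝ) ^ k * δ) := by ring
    _ ≤ 2 * Real.pi * (1 / 100) := by gcongr
    _ ≤ 0.0629 := by nlinarith

/-- distance to the origin of a half plane -/
lemma norm_le_of_half {v y : ℂ} (h : ((-(starRingEnd ℂ v)) * (y - v)).re ≤ 0) : ‖v‖ ≤ ‖y‖ := by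
  by_cases hv : v = 0
  · rw [hv, norm_zero]; exact norm_nonneg _
  have h1 : ‖v‖ ^ 2 ≤ (starRingEnd ℂ v * y).re := by
    have h2 : (-(starRingEnd ℂ v)) * (y - v) = ((‖v‖ ^ 2 : ℝ) : ℂ) - starRingEnd ℂ v * y := by
      have : ((‖v‖ ^ 2 : ℝ) : ℂ) = starRingEnd ℂ v * v := by
        rw [mul_comm, Complex.mul_conj, Complex.normSq_eq_norm_sq]
      rw [this]; ring
    rw [h2, Complex.sub_re, Complex.ofReal_re] at h
    linarith
  have h3 : (starRingEnd ℂ v * y).re ≤ ‖v‖ * ‖y‖ := by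
    refine (Complex.re_le_norm _).trans ?_
    rw [norm_mul, RCLike.norm_conj]
  have h4 : 0 < ‖v‖ := norm_pos_iff.2 hv
  have h5 : ‖v‖ * ‖v‖ ≤ ‖v‖ * ‖y‖ := by nlinarith
  exact le_of_mul_le_mul_left h5 h4

/-- lower bound on the size of the critical value -/
lemma norm_v {a : ℂ} (ha : a ≠ 0) {ε : ℝ} (h : ‖a‖ ≤ ε) (hε : ε ≤ 1) :
    (1 - ε) ^ 2 / (4 * ‖a‖) ≤ ‖(1 + a) ^ 2 / (4 * a)‖ := by
  have h0 : 0 < ‖a‖ := norm_pos_iff.2 ha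
  rw [norm_div, norm_pow, norm_mul]
  have h1 : ‖(4 : ℂ)‖ = 4 := by norm_num
  rw [h1]
  have h2 : 1 - ε ≤ ‖1 + a‖ := by
    have := norm_sub_norm_le (1 : ℂ) (-a)
    rw [norm_neg, norm_one, sub_neg_eq_add] at this
    linarith
  have h3 : 0 ≤ 1 - ε := by linarith
  gcongr

/-- even base degree -/
lemma half_even {L : ℕ} (hL : 1 < L) (hev : Even L) {α : ℂ} (hα0 : 0 < ‖α‖) (hα : ‖α‖ < 1)
    {C : ℝ} {n1 : ℕ} (hn1 : 3 ≤ n1) (hC1 : C ≤ 3 * 2 ^ n1)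
    (hC2 : 1 + 4 / ‖α‖ ≤ 3 * 2 ^ n1) {δ : ℝ} (hδ0 : 0 < δ) (hδ : δ ≤ 1 / 100 / (L : ℝ) ^ n1)
    (h0 : aseq L α (1 / 4 + δ) 0 ≠ 0) :
    ∃ e : ℂ, e ≠ 0 ∧ ∀ y : ℂ, (e * (y - (1 + aseq L α (1 / 4 + δ) 0) ^ 2 /
      (4 * aseq L α (1 / 4 + δ) 0))).re ≤ 0 →
      C ≤ ‖orb (sh 1 (aseq L α (1 / 4 + δ))) (n1 - 1) y‖ := by
  have hL0 : (0 : ℝ) < L := by
    have : 0 < L := by omega
    exact_mod_cast this
  set a := aseq L α (1 / 4 + δ) with hadef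
  set v : ℂ := (1 + a 0) ^ 2 / (4 * a 0) with hv
  have ht0 : th L δ 0 * (L : ℝ) ^ n1 ≤ 0.0629 := th_le (by omega) hδ n1 0 (by omega)
  have htp := th_pos (by omega : 0 < L) hδ0 0
  have ha0 : ‖a 0‖ ≤ th L δ 0 := by
    rw [hadef, norm_aseq, cr_odd_abs δ (by simp)]
    have h1 : |Real.sin (th L δ 0)| ≤ th L δ 0 := by
      have := Real.abs_sin_le_one (th L δ 0)
      have h2 : |Real.sin (th L δ 0)| ≤ |th L δ 0| := Real.abs_sin_le_abs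
      rwa [abs_of_pos htp] at h2
    nlinarith [abs_nonneg (Real.sin (th L δ 0))]
  have h2pow : (8 : ℝ) ≤ (L : ℝ) ^ n1 := by
    have h3 : (2 : ℝ) ≤ L := by exact_mod_cast hL
    calc (8 : ℝ) = 2 ^ 3 := by norm_num
      _ ≤ 2 ^ n1 := pow_le_pow_right₀ (by norm_num) hn1
      _ ≤ (L : ℝ) ^ n1 := pow_le_pow_left₀ (by norm_num) h3 n1
  have ht0' : th L δ 0 ≤ 0.01 := by nlinarith
  have hvn : 3 * (2 : ℝ) ^ n1 ≤ ‖v‖ := by
    have h1 := norm_v h0 (ha0.trans ht0') (by norm_num)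
    refine le_trans ?_ h1
    have hap : 0 < ‖a 0‖ := norm_pos_iff.2 h0
    rw [le_div_iff₀ (by positivity)]
    have h3 : (2 : ℝ) ≤ L := by exact_mod_cast hL
    have h4 : (2 : ℝ) ^ n1 ≤ (L : ℝ) ^ n1 := pow_le_pow_left₀ (by norm_num) h3 n1
    have h5 : ‖a 0‖ * 2 ^ n1 ≤ 0.0629 :=
      (mul_le_mul ha0 h4 (by positivity) htp.le).trans ht0
    nlinarith
  refine ⟨-(starRingEnd ℂ v), ?_, fun y hy => ?_⟩
  · rw [neg_ne_zero, Ne, map_eq_zero]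
    intro h
    rw [h, norm_zero] at hvn
    have : (0 : ℝ) < 2 ^ n1 := by positivity
    linarith
  have hyv := norm_le_of_half hy
  have key : ∀ k : ℕ, k ≤ n1 - 1 → 3 * (2 : ℝ) ^ n1 ≤ ‖orb (sh 1 a) k y‖ := by
    intro k hk
    induction k with
    | zero => rw [orb_zero]; exact hvn.trans hyv
    | succ k ih =>
      have ih' := ih (by omega)
      rw [orb_succ]
      have h1 := st_lower (sh 1 a k) (orb (sh 1 a) k y)
      set w := orb (sh 1 a) k y with hw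
      have h2 : ‖α‖ / 2 ≤ ‖sh 1 a k‖ := by
        rw [sh, hadef, norm_aseq, cr_even hev δ (by omega)]
        have h3 : th L δ (1 + k) * (L : ℝ) ^ 0 ≤ 0.0629 := th_le (by omega) hδ 0 _ (by omega)
        rw [pow_zero, mul_one] at h3
        have h3' := th_pos (by omega : 0 < L) hδ0 (1 + k)
        have h4 : 1 - th L δ (1 + k) ^ 2 / 2 ≤ Real.cos (th L δ (1 + k)) :=
          Real.one_sub_sq_div_two_le_cos
        have h5 : 1 / 2 ≤ |Real.cos (th L δ (1 + k))| := by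
          refine le_trans ?_ (le_abs_self _)
          nlinarith
        nlinarith
      have h3 : 2 ≤ ‖sh 1 a k‖ * (‖w‖ - 1) := by
        have h4 : 4 / ‖α‖ ≤ ‖w‖ - 1 := by linarith
        have h5 : (0 : ℝ) ≤ 4 / ‖α‖ := by positivity
        calc (2 : ℝ) = ‖α‖ / 2 * (4 / ‖α‖) := by field_simp; norm_num
          _ ≤ ‖sh 1 a k‖ * (‖w‖ - 1) := by gcongr
      have h4 : ‖w‖ ≤ ‖w‖ * (‖sh 1 a k‖ * (‖w‖ - 1) - 1) := by
        nlinarith [norm_nonneg w]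
      linarith
  exact hC1.trans (key _ le_rfl)

/-- odd base degree: ratio of successive coefficients -/
lemma ratio_odd {L : ℕ} (hL : 1 < L) (hodd : Odd L) {α : ℂ} {n1 : ℕ} {δ : ℝ} (hδ0 : 0 < δ)
    (hδ : δ ≤ 1 / 100 / (L : ℝ) ^ n1) {n : ℕ} (hn : n + 1 ≤ n1) :
    0.999 * L * ‖aseq L α (1 / 4 + δ) n‖ ≤ ‖aseq L α (1 / 4 + δ) (n + 1)‖ := by
  have hL0 : (0 : ℝ) < L := by
    have : 0 < L := by omega
    exact_mod_cast this
  rw [norm_aseq, norm_aseq, cr_odd_abs δ hodd.pow, cr_odd_abs δ hodd.pow]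
  have h1 : th L δ (n + 1) * (L : ℝ) ^ 0 ≤ 0.0629 := th_le (by omega) hδ 0 _ (by omega)
  rw [pow_zero, mul_one] at h1
  have hp := th_pos (by omega : 0 < L) hδ0 n
  have hp1 := th_pos (by omega : 0 < L) hδ0 (n + 1)
  have h2 : |Real.sin (th L δ n)| ≤ th L δ n := by
    have h2 : |Real.sin (th L δ n)| ≤ |th L δ n| := Real.abs_sin_le_abs
    rwa [abs_of_pos hp] at h2
  have h3 : 0.999 * th L δ (n + 1) ≤ |Real.sin (th L δ (n + 1))| := by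
    refine le_trans ?_ (le_abs_self _)
    have h4 := Real.sin_gt_sub_cube hp1
    have h5 : th L δ (n + 1) ^ 2 ≤ 0.004 := by nlinarith
    nlinarith
  rw [th_succ] at h3
  calc 0.999 * L * (‖α‖ * |Real.sin (th L δ n)|) ≤ 0.999 * L * (‖α‖ * th L δ n) := by gcongr
    _ = ‖α‖ * (0.999 * (L * th L δ n)) := by ring
    _ ≤ _ := by rw [th_succ]; gcongr

lemma small_odd {L : ℕ} (hL : 1 < L) (hodd : Odd L) {α : ℂ} (hα : ‖α‖ < 1) {n1 : ℕ} {δ : ℝ}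
    (hδ0 : 0 < δ) (hδ : δ ≤ 1 / 100 / (L : ℝ) ^ n1) {n : ℕ} (hn : n + 1 ≤ n1) :
    ‖aseq L α (1 / 4 + δ) n‖ * L ≤ 0.0629 := by
  have hL0 : (0 : ℝ) < L := by
    have : 0 < L := by omega
    exact_mod_cast this
  rw [norm_aseq, cr_odd_abs δ hodd.pow]
  have h1 : th L δ n * (L : ℝ) ^ 1 ≤ 0.0629 := th_le (by omega) hδ 1 _ hn
  rw [pow_one] at h1
  have hp := th_pos (by omega : 0 < L) hδ0 n
  have h2 : |Real.sin (th L δ n)| ≤ th L δ n := by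
    have h2 : |Real.sin (th L δ n)| ≤ |th L δ n| := Real.abs_sin_le_abs
    rwa [abs_of_pos hp] at h2
  calc ‖α‖ * |Real.sin (th L δ n)| * L ≤ 1 * th L δ n * L := by gcongr
    _ ≤ _ := by linarith

lemma st_lower2 (a z : ℂ) : ‖z‖ * (‖a‖ * ‖z‖ - 1 - ‖a‖) ≤ ‖st a z‖ := by
  have := st_lower a z
  refine le_trans (le_of_eq ?_) this
  ring

/-- growth in the odd case -/
lemma grow_odd {L : ℕ} (hL : 1 < L) (hodd : Odd L) {α : ℂ} (hα : ‖α‖ < 1) {n1 : ℕ} {δ : ℝ}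
    (hδ0 : 0 < δ) (hδ : δ ≤ 1 / 100 / (L : ℝ) ^ n1) {ρ : ℝ} (hρ1 : 1.2 + 0.0629 / L ≤ ρ)
    (hρ : 1.1 ≤ 0.999 * L * (ρ - 1 - 0.0629 / L)) {s : ℕ} {y : ℂ}
    (hs : ρ ≤ ‖aseq L α (1 / 4 + δ) (1 + s)‖ * ‖orb (sh 1 (aseq L α (1 / 4 + δ))) s y‖)
    (k : ℕ) (hk : 1 + s + k + 1 ≤ n1) :
    ρ * 1.1 ^ k ≤ ‖aseq L α (1 / 4 + δ) (1 + s + k)‖ *
      ‖orb (sh 1 (aseq L α (1 / 4 + δ))) (s + k) y‖ := by
  have hL0 : (0 : ℝ) < L := by
    have : 0 < L := by omega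
    exact_mod_cast this
  set a := aseq L α (1 / 4 + δ) with hadef
  have hq : (0 : ℝ) ≤ 0.0629 / L := by positivity
  induction k with
  | zero => simpa using hs
  | succ k ih =>
    have ih' := ih (by omega)
    have h1 : orb (sh 1 a) (s + (k + 1)) y = st (a (1 + s + k)) (orb (sh 1 a) (s + k) y) := by
      rw [← add_assoc, orb_succ, sh, ← add_assoc]
    rw [h1]
    have h2 := st_lower2 (a (1 + s + k)) (orb (sh 1 a) (s + k) y)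
    have h3 := ratio_odd (α := α) hL hodd hδ0 hδ (n := 1 + s + k) (by omega)
    have h4 := small_odd (α := α) hL hodd hα hδ0 hδ (n := 1 + s + k) (by omega)
    rw [← hadef] at h3 h4
    set w := orb (sh 1 a) (s + k) y with hw
    set A := ‖a (1 + s + k)‖ with hA
    have hA0 : 0 ≤ A := norm_nonneg _
    have h5 : A ≤ 0.0629 / L := by rw [le_div_iff₀ hL0]; exact h4
    have h6 : ρ ≤ A * ‖w‖ := by
      refine le_trans ?_ ih'
      have : (1 : ℝ) ≤ 1.1 ^ k := one_le_pow₀ (by norm_num)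
      nlinarith
    have h7 : ρ - 1 - 0.0629 / L ≤ A * ‖w‖ - 1 - A := by linarith
    have h8 : 0 ≤ ρ - 1 - 0.0629 / L := by linarith
    have h9 : 1.1 ≤ 0.999 * L * (A * ‖w‖ - 1 - A) := by
      refine hρ.trans ?_
      gcongr
    calc ρ * 1.1 ^ (k + 1) = (ρ * 1.1 ^ k) * 1.1 := by ring
      _ ≤ (A * ‖w‖) * (0.999 * L * (A * ‖w‖ - 1 - A)) := by
          apply mul_le_mul ih' h9 (by norm_num)
          positivity
      _ = (0.999 * L * A) * (‖w‖ * (A * ‖w‖ - 1 - A)) := by ring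
      _ ≤ ‖a (1 + s + k + 1)‖ * ‖st (a (1 + s + k)) w‖ := by
          apply mul_le_mul h3 h2
          · apply mul_nonneg (norm_nonneg _)
            linarith
          · exact norm_nonneg _
      _ = _ := by rw [add_assoc (1 + s)]

/-- final step in the odd case -/
lemma final_odd {L : ℕ} (hL : 1 < L) (hodd : Odd L) {α : ℂ} (hα : ‖α‖ < 1) {n1 : ℕ} {δ : ℝ}
    (hδ0 : 0 < δ) (hδ : δ ≤ 1 / 100 / (L : ℝ) ^ n1) {ρ : ℝ} (hρ1 : 1.2 + 0.0629 / L ≤ ρ)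
    (hρ : 1.1 ≤ 0.999 * L * (ρ - 1 - 0.0629 / L)) {s : ℕ} (hs1 : s ≤ 1) (hn1 : 3 ≤ n1) {y : ℂ}
    (hs : ρ ≤ ‖aseq L α (1 / 4 + δ) (1 + s)‖ * ‖orb (sh 1 (aseq L α (1 / 4 + δ))) s y‖) :
    0.2 * 1.1 ^ (n1 - 3) ≤ ‖orb (sh 1 (aseq L α (1 / 4 + δ))) (n1 - 1) y‖ := by
  have hL0 : (0 : ℝ) < L := by
    have : 0 < L := by omega
    exact_mod_cast this
  have hL1 : (1 : ℝ) ≤ L := by
    have : 1 ≤ L := by omega
    exact_mod_cast this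
  have hg := grow_odd hL hodd hα hδ0 hδ hρ1 hρ hs (n1 - 2 - s) (by omega)
  have h4 := small_odd (α := α) hL hodd hα hδ0 hδ (n := 1 + s + (n1 - 2 - s)) (by omega)
  set a := aseq L α (1 / 4 + δ) with hadef
  have e1 : s + (n1 - 2 - s) = n1 - 2 := by omega
  have e2 : 1 + s + (n1 - 2 - s) = 1 + (n1 - 2) := by omega
  have e3 : n1 - 1 = n1 - 2 + 1 := by omega
  rw [e1, e2] at hg
  rw [e2] at h4
  rw [e3, orb_succ]
  have h1 : sh 1 a (n1 - 2) = a (1 + (n1 - 2)) := rfl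
  rw [h1]
  have h2 := st_lower2 (a (1 + (n1 - 2))) (orb (sh 1 a) (n1 - 2) y)
  set w := orb (sh 1 a) (n1 - 2) y with hw
  set A := ‖a (1 + (n1 - 2))‖ with hA
  have hA0 : 0 ≤ A := norm_nonneg _
  have hq : (0 : ℝ) ≤ 0.0629 / L := by positivity
  have h5 : A ≤ 0.0629 / L := by rw [le_div_iff₀ hL0]; exact h4
  have h5' : A ≤ 1 := by
    have : A * 1 ≤ A * L := mul_le_mul_of_nonneg_left hL1 hA0
    linarith
  have hpw : (1.1 : ℝ) ^ (n1 - 3) ≤ 1.1 ^ (n1 - 2 - s) := pow_le_pow_right₀ (by norm_num) (by omega)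
  have hp0 : (1 : ℝ) ≤ 1.1 ^ (n1 - 3) := one_le_pow₀ (by norm_num)
  have h6 : ρ ≤ A * ‖w‖ := by nlinarith
  have h7 : (1.1 : ℝ) ^ (n1 - 3) ≤ ‖w‖ := by
    have : A * ‖w‖ ≤ 1 * ‖w‖ := mul_le_mul_of_nonneg_right h5' (norm_nonneg _)
    nlinarith
  have h8 : 0.2 ≤ A * ‖w‖ - 1 - A := by linarith
  calc 0.2 * (1.1 : ℝ) ^ (n1 - 3) = 1.1 ^ (n1 - 3) * 0.2 := by ring
    _ ≤ ‖w‖ * (A * ‖w‖ - 1 - A) := mul_le_mul h7 h8 (by norm_num) (norm_nonneg _)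
    _ ≤ _ := h2

/-- odd base degree at least five -/
lemma half_odd5 {L : ℕ} (hL : 5 ≤ L) (hodd : Odd L) {α : ℂ} (hα : ‖α‖ < 1)
    {n1 : ℕ} (hn1 : 3 ≤ n1) {δ : ℝ} (hδ0 : 0 < δ) (hδ : δ ≤ 1 / 100 / (L : ℝ) ^ n1)
    (h0 : aseq L α (1 / 4 + δ) 0 ≠ 0) :
    ∃ e : ℂ, e ≠ 0 ∧ ∀ y : ℂ, (e * (y - (1 + aseq L α (1 / 4 + δ) 0) ^ 2 /
      (4 * aseq L α (1 / 4 + δ) 0))).re ≤ 0 →
      0.2 * 1.1 ^ (n1 - 3) ≤ ‖orb (sh 1 (aseq L α (1 / 4 + δ))) (n1 - 1) y‖ := by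
  have hL5 : (5 : ℝ) ≤ L := by exact_mod_cast hL
  have hL0 : (0 : ℝ) < L := by linarith
  have hq : (0.0629 : ℝ) / L ≤ 0.0126 := by
    rw [div_le_iff₀ hL0]; nlinarith
  set a := aseq L α (1 / 4 + δ) with hadef
  set v : ℂ := (1 + a 0) ^ 2 / (4 * a 0) with hv
  have ht0 : th L δ 0 * (L : ℝ) ^ 3 ≤ 0.0629 := th_le (by omega) hδ 3 0 (by omega)
  have htp := th_pos (by omega : 0 < L) hδ0 0
  have hL3 : (125 : ℝ) ≤ (L : ℝ) ^ 3 := by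
    calc (125 : ℝ) = 5 ^ 3 := by norm_num
      _ ≤ (L : ℝ) ^ 3 := pow_le_pow_left₀ (by norm_num) hL5 3
  have ht0' : th L δ 0 ≤ 0.001 := by nlinarith
  have ha0 : ‖a 0‖ ≤ th L δ 0 := by
    rw [hadef, norm_aseq, cr_odd_abs δ (by simp)]
    have h2 : |Real.sin (th L δ 0)| ≤ |th L δ 0| := Real.abs_sin_le_abs
    rw [abs_of_pos htp] at h2
    nlinarith [abs_nonneg (Real.sin (th L δ 0)), norm_nonneg α]
  have hvn := norm_v h0 (ha0.trans ht0') (by norm_num)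
  rw [← hv] at hvn
  have hap : 0 < ‖a 0‖ := norm_pos_iff.2 h0
  have hr := ratio_odd (α := α) (by omega) hodd hδ0 hδ (n := 0) (by omega)
  rw [← hadef] at hr
  have h1v : 1.24 ≤ ‖a 1‖ * ‖v‖ := by
    calc (1.24 : ℝ) ≤ 0.999 * 5 * (1 - 0.001) ^ 2 / 4 := by norm_num
      _ ≤ 0.999 * L * (1 - 0.001) ^ 2 / 4 := by gcongr
      _ = (0.999 * L * ‖a 0‖) * ((1 - 0.001) ^ 2 / (4 * ‖a 0‖)) := by field_simp
      _ ≤ ‖a 1‖ * ‖v‖ := by
          apply mul_le_mul hr hvn (by positivity) (norm_nonneg _)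
  refine ⟨-(starRingEnd ℂ v), ?_, fun y hy => ?_⟩
  · rw [neg_ne_zero, Ne, map_eq_zero]
    intro h
    rw [h, norm_zero, mul_zero] at h1v
    norm_num at h1v
  have hyv := norm_le_of_half hy
  refine final_odd (by omega) hodd hα hδ0 hδ (ρ := 1.24) (by linarith) ?_ (s := 0) (by omega) hn1 ?_
  · have : (0.2273 : ℝ) ≤ 1.24 - 1 - 0.0629 / L := by linarith
    nlinarith
  · rw [orb_zero, add_zero]
    exact h1v.trans (mul_le_mul_of_nonneg_left hyv (norm_nonneg _))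

/-- base degree three -/
lemma half_three {α : ℂ} (hα : ‖α‖ < 1)
    {n1 : ℕ} (hn1 : 3 ≤ n1) {δ : ℝ} (hδ0 : 0 < δ) (hδ : δ ≤ 1 / 100 / ((3 : ℕ) : ℝ) ^ n1)
    (h0 : aseq 3 α (1 / 4 + δ) 0 ≠ 0) :
    ∃ e : ℂ, e ≠ 0 ∧ ∀ y : ℂ, (e * (y - (1 + aseq 3 α (1 / 4 + δ) 0) ^ 2 /
      (4 * aseq 3 α (1 / 4 + δ) 0))).re ≤ 0 →
      0.2 * 1.1 ^ (n1 - 3) ≤ ‖orb (sh 1 (aseq 3 α (1 / 4 + δ))) (n1 - 1) y‖ := by
  have hodd : Odd 3 := by decide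
  set a := aseq 3 α (1 / 4 + δ) with hadef
  set v : ℂ := (1 + a 0) ^ 2 / (4 * a 0) with hv
  have ht0 : th 3 δ 0 * ((3 : ℕ) : ℝ) ^ 3 ≤ 0.0629 := th_le (by omega) hδ 3 0 (by omega)
  have htp := th_pos (by omega : 0 < 3) hδ0 0
  have htp1 := th_pos (by omega : 0 < 3) hδ0 1
  have ht0' : th 3 δ 0 ≤ 0.0024 := by
    norm_num at ht0 ⊢
    linarith
  have ha0 : ‖a 0‖ ≤ th 3 δ 0 := by
    rw [hadef, norm_aseq, cr_odd_abs δ (by simp)]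
    have h2 : |Real.sin (th 3 δ 0)| ≤ |th 3 δ 0| := Real.abs_sin_le_abs
    rw [abs_of_pos htp] at h2
    nlinarith [abs_nonneg (Real.sin (th 3 δ 0)), norm_nonneg α]
  have hap : 0 < ‖a 0‖ := norm_pos_iff.2 h0
  have hs0 : 0 < Real.sin (th 3 δ 0) := Real.sin_pos_of_pos_of_lt_pi htp (by
    linarith [Real.pi_gt_three])
  have hs0' : Real.sin (th 3 δ 0) ≤ th 3 δ 0 := (Real.sin_lt htp).le
  have ht1 : th 3 δ 1 = 3 * th 3 δ 0 := by rw [th_succ]; norm_num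
  have hs1 : 0.999 * (3 * th 3 δ 0) ≤ Real.sin (th 3 δ 1) := by
    have h4 := Real.sin_gt_sub_cube htp1
    rw [ht1] at h4 ⊢
    have h5 : th 3 δ 0 ^ 2 ≤ 0.0001 := by nlinarith
    nlinarith
  have hA0 : a 0 = -(α * (Real.sin (th 3 δ 0) : ℂ)) := by
    rw [hadef, aseq, cr_odd (L := 3) δ (n := 0) (k := 0) (by norm_num)]
    push_cast
    ring
  have hA1 : a 1 = α * (Real.sin (th 3 δ 1) : ℂ) := by
    rw [hadef, aseq, cr_odd (L := 3) δ (n := 1) (k := 1) (by norm_num)]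
    push_cast
    ring
  set κ : ℝ := Real.sin (th 3 δ 1) / Real.sin (th 3 δ 0) with hκ
  have hκ1 : 2.997 ≤ κ := by
    rw [hκ, le_div_iff₀ hs0]
    nlinarith
  have hA1' : a 1 = -(κ : ℂ) * a 0 := by
    have : (Real.sin (th 3 δ 0) : ℂ) ≠ 0 := by exact_mod_cast hs0.ne'
    rw [hA1, hA0, hκ, Complex.ofReal_div]
    field_simp
  have hre0 : |(a 0).re| ≤ 0.0024 := (Complex.abs_re_le_norm _).trans (ha0.trans ht0')
  have him0 : |(a 0).im| ≤ 0.0024 := (Complex.abs_im_le_norm _).trans (ha0.trans ht0')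
  have hav : a 1 * v = ((-(κ / 4) : ℝ) : ℂ) * (1 + a 0) ^ 2 := by
    rw [hA1', hv]
    push_cast
    field_simp
  have hsq : 0.99 ≤ ((1 + a 0) ^ 2).re := by
    have : ((1 + a 0) ^ 2).re = (1 + (a 0).re) ^ 2 - (a 0).im ^ 2 := by
      rw [sq, Complex.mul_re]
      simp
      ring
    rw [this]
    rw [abs_le] at hre0 him0
    nlinarith
  have havre : (a 1 * v).re ≤ -0.74 := by
    rw [hav, Complex.re_ofReal_mul]
    nlinarith
  have h1ne : a 1 ≠ 0 := by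
    rw [hA1']
    apply mul_ne_zero _ h0
    rw [neg_ne_zero]
    have : κ ≠ 0 := by linarith
    exact_mod_cast this
  refine ⟨a 1, h1ne, fun y hy => ?_⟩
  have hy1 : (a 1 * y).re ≤ -0.74 := by
    rw [mul_sub, Complex.sub_re] at hy
    linarith
  have hsm := small_odd (α := α) (by omega) hodd hα hδ0 hδ (n := 1) (by omega)
  rw [← hadef] at hsm
  have hsm' : ‖a 1‖ ≤ 0.021 := by
    norm_num at hsm ⊢
    linarith
  have hr := ratio_odd (α := α) (by omega) hodd hδ0 hδ (n := 1) (by omega)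
  rw [← hadef] at hr
  have hay : 0.74 ≤ ‖a 1‖ * ‖y‖ := by
    rw [← norm_mul]
    have := (abs_le.1 (Complex.abs_re_le_norm (a 1 * y))).1
    linarith
  have hfac : 1.719 ≤ ‖1 + a 1 - a 1 * y‖ := by
    refine le_trans ?_ (Complex.re_le_norm _)
    rw [Complex.sub_re, Complex.add_re, Complex.one_re]
    have := (abs_le.1 (Complex.abs_re_le_norm (a 1))).1
    linarith
  refine final_odd (by omega) hodd hα hδ0 hδ (ρ := 1.4) (by norm_num) (by norm_num) (s := 1)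
    (by omega) hn1 ?_
  rw [← hadef, orb_succ, orb_zero]
  have h1 : sh 1 a 0 = a 1 := by simp [sh]
  rw [h1]
  have h2 : st (a 1) y = y * (1 + a 1 - a 1 * y) := by rw [st]; ring
  rw [h2, norm_mul]
  have h3 : ((3 : ℕ) : ℝ) = 3 := by norm_num
  rw [h3] at hr
  calc (1.4 : ℝ) ≤ 0.999 * 3 * (0.74 * 1.719) := by norm_num
    _ ≤ 0.999 * 3 * ((‖a 1‖ * ‖y‖) * ‖1 + a 1 - a 1 * y‖) := by
        gcongr
    _ = (0.999 * 3 * ‖a 1‖) * (‖y‖ * ‖1 + a 1 - a 1 * y‖) := by ring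
    _ ≤ ‖a (1 + 1)‖ * (‖y‖ * ‖1 + a 1 - a 1 * y‖) := by gcongr

end Pool.Agent.R239.Kan
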